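import Mathlib

/-!
Almost inclusion, dense open families of infinite sets of naturals, and the distributivity ordinal.
-/

open scoped Pointwise

namespace Pool.Agent.KSec

/-- `AL X Y`: the set `X` is almost contained in `Y` (all but finitely many elements). -/
def AL (X Y : Set ℕ) : Prop := (X \ Y).Finite

theorem AL.refl (X : Set ℕ) : AL X X := by simp [AL]

theorem AL.of_subset {X Y : Set ℕ} (h : X ⊆ Y) : AL X Y := by
  simp [AL, Set.sdiff_eq_empty.mpr h]

theorem AL.trans {X Y Z : Set ℕ} (h : AL X Y) (h' : AL Y Z) : AL X Z := by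
  refine (h.union h').subset ?_
  intro x hx
  by_cases hy : x ∈ Y
  · exact Or.inr ⟨hy, hx.2⟩
  · exact Or.inl ⟨hx.1, hy⟩

theorem AL.mono_left {X Y Z : Set ℕ} (h : X ⊆ Y) (h' : AL Y Z) : AL X Z :=
  (AL.of_subset h).trans h'

theorem AL.mono_right {X Y Z : Set ℕ} (h : AL X Y) (h' : Y ⊆ Z) : AL X Z :=
  h.trans (AL.of_subset h')

/-- If `X` is infinite and almost contained in `Y` then `X ∩ Y` is infinite. -/
theorem AL.inter_infinite {X Y : Set ℕ} (h : AL X Y) (hX : X.Infinite) : (X ∩ Y).Infinite := by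
  intro hf
  apply hX
  have : X = (X \ Y) ∪ (X ∩ Y) := by
    rw [Set.sdiff_union_inter]
  rw [this]
  exact h.union hf

theorem AL.inter_infinite2 {X Y Z : Set ℕ} (h : AL X Y) (h' : AL X Z) (hX : X.Infinite) :
    (Y ∩ Z).Infinite := by
  have h1 := h.inter_infinite hX
  have h2 : AL (X ∩ Y) Z := AL.mono_left Set.inter_subset_left h'
  exact (h2.inter_infinite h1).mono (fun x hx => ⟨hx.1.2, hx.2⟩)

/-- If `X` is almost contained in `Y` and `Y ∩ Z` is finite then so is `X ∩ Z`. -/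
theorem AL.inter_finite {X Y Z : Set ℕ} (h : AL X Y) (hf : (Y ∩ Z).Finite) : (X ∩ Z).Finite := by
  refine (h.union hf).subset ?_
  intro x hx
  by_cases hy : x ∈ Y
  · exact Or.inr ⟨hy, hx.2⟩
  · exact Or.inl ⟨hx.1, hy⟩

theorem AL.smul {X Y : Set ℕ} (h : AL X Y) (g : Equiv.Perm ℕ) : AL (g • X) (g • Y) := by
  unfold AL at *
  rw [← Set.smul_set_sdiff]
  exact h.smul_set

theorem AL.smul_iff {X Y : Set ℕ} (g : Equiv.Perm ℕ) : AL (g • X) Y ↔ AL X (g⁻¹ • Y) := by
  constructor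
  · intro h
    have := h.smul g⁻¹
    rwa [inv_smul_smul] at this
  · intro h
    have := h.smul g
    rwa [smul_inv_smul] at this

theorem infinite_smul {X : Set ℕ} (g : Equiv.Perm ℕ) : (g • X).Infinite ↔ X.Infinite := by
  exact Set.infinite_smul_set

theorem inter_smul_infinite {X Y : Set ℕ} (g : Equiv.Perm ℕ) :
    (g • X ∩ Y).Infinite ↔ (X ∩ g⁻¹ • Y).Infinite := by
  rw [← infinite_smul g (X := X ∩ g⁻¹ • Y), Set.smul_set_inter, smul_inv_smul]

/-- Pseudo-intersections of decreasing sequences of infinite sets. -/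
theorem pseudo (X : ℕ → Set ℕ) (hX : ∀ n, (X n).Infinite) (hd : ∀ n, X (n + 1) ⊆ X n) :
    ∃ Y ⊆ X 0, Y.Infinite ∧ ∀ n, AL Y (X n) := by
  have hanti : ∀ m n, m ≤ n → X n ⊆ X m := by
    intro m n hmn
    induction hmn with
    | refl => exact subset_rfl
    | step _ ih => exact (hd _).trans ih
  have hex : ∀ n a, ∃ b, b ∈ X n ∧ a < b := fun n a => (hX n).exists_gt a
  choose F hF1 hF2 using hex
  let y : ℕ → ℕ := fun n => Nat.rec (F 0 0) (fun m b => F (m + 1) b) n
  have hy : ∀ n, y n ∈ X n := by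
    intro n
    cases n with
    | zero => exact hF1 _ _
    | succ m => exact hF1 _ _
  have hlt : ∀ n, y n < y (n + 1) := fun n => hF2 _ _
  have hmono : StrictMono y := strictMono_nat_of_lt_succ hlt
  refine ⟨Set.range y, ?_, Set.infinite_range_of_injective hmono.injective, ?_⟩
  · rintro _ ⟨n, rfl⟩
    exact hanti 0 n (Nat.zero_le _) (hy n)
  · intro n
    refine ((Set.finite_lt_nat n).image y).subset ?_
    rintro _ ⟨⟨m, rfl⟩, hm⟩
    refine ⟨m, ?_, rfl⟩
    by_contra hc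
    exact hm (hanti n m (not_lt.mp hc) (hy m))

/-- A family of sets is dense open if it is closed under infinite almost subsets and every infinite
set has an infinite subset in the family. -/
structure DO (O : Set (Set ℕ)) : Prop where
  opn : ∀ X ∈ O, ∀ Y : Set ℕ, Y.Infinite → AL Y X → Y ∈ O
  dns : ∀ X : Set ℕ, X.Infinite → ∃ Y ⊆ X, Y.Infinite ∧ Y ∈ O

theorem DO.univ : DO Set.univ := ⟨fun _ _ _ _ _ => trivial, fun X hX => ⟨X, subset_rfl, hX, trivial⟩⟩

theorem DO.iInter_nat {O : ℕ → Set (Set ℕ)} (h : ∀ n, DO (O n)) : DO {Y | ∀ n, Y ∈ O n} := by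
  constructor
  · intro X hX Y hY hYX n
    exact (h n).opn X (hX n) Y hY hYX
  · intro X hX
    have hex : ∀ (n : ℕ) (Z : {Z : Set ℕ // Z.Infinite}),
        ∃ Z' : {Z : Set ℕ // Z.Infinite}, Z'.1 ⊆ Z.1 ∧ Z'.1 ∈ O n := by
      intro n Z
      obtain ⟨Y, h1, h2, h3⟩ := (h n).dns Z.1 Z.2
      exact ⟨⟨Y, h2⟩, h1, h3⟩
    choose F hF1 hF2 using hex
    let S : ℕ → {Z : Set ℕ // Z.Infinite} := fun n => Nat.rec ⟨X, hX⟩ (fun m Z => F m Z) n
    obtain ⟨Y, hY0, hY1, hY2⟩ := pseudo (fun n => (S n).1) (fun n => (S n).2)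
      (fun n => hF1 n (S n))
    refine ⟨Y, hY0, hY1, fun n => ?_⟩
    exact (h n).opn _ (hF2 n (S n)) Y hY1 (hY2 (n + 1))

theorem DO.inter {O O' : Set (Set ℕ)} (h : DO O) (h' : DO O') : DO (O ∩ O') := by
  have := DO.iInter_nat (O := fun n => if n = 0 then O else O')
    (fun n => by by_cases hn : n = 0 <;> simp [hn, h, h'])
  have he : {Y | ∀ n : ℕ, Y ∈ (if n = 0 then O else O')} = O ∩ O' := by
    ext Y
    constructor
    · intro hY
      refine ⟨by simpa using hY 0, by simpa using hY 1⟩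
    · rintro ⟨h1, h2⟩ n
      by_cases hn : n = 0 <;> simp [hn, h1, h2]
  rwa [he] at this

theorem DO.iInter_countable {ι : Type*} [Countable ι] {O : ι → Set (Set ℕ)} (h : ∀ i, DO (O i)) :
    DO {Y | ∀ i, Y ∈ O i} := by
  rcases isEmpty_or_nonempty ι with he | hne
  · have : {Y : Set ℕ | ∀ i, Y ∈ O i} = Set.univ := by
      ext Y; simp
    rw [this]; exact DO.univ
  · obtain ⟨f, hf⟩ := exists_surjective_nat ι
    have := DO.iInter_nat (O := fun n => O (f n)) (fun n => h _)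
    have he : {Y | ∀ n : ℕ, Y ∈ O (f n)} = {Y | ∀ i, Y ∈ O i} := by
      ext Y
      constructor
      · intro hY i
        obtain ⟨n, rfl⟩ := hf i
        exact hY n
      · intro hY n
        exact hY _
    rwa [he] at this

theorem DO.smul {O : Set (Set ℕ)} (h : DO O) (g : Equiv.Perm ℕ) : DO {Y | g • Y ∈ O} := by
  constructor
  · intro X hX Y hY hYX
    exact h.opn _ hX _ ((infinite_smul g).mpr hY) (hYX.smul g)
  · intro X hX
    obtain ⟨Y, h1, h2, h3⟩ := h.dns (g • X) ((infinite_smul g).mpr hX)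
    refine ⟨g⁻¹ • Y, ?_, (infinite_smul _).mpr h2, ?_⟩
    · rw [← Set.subset_smul_set_iff] at *
      exact h1
    · show g • g⁻¹ • Y ∈ O
      rwa [smul_inv_smul]

/-- Increasing enumeration of an infinite set. -/
theorem exists_enum {X : Set ℕ} (hX : X.Infinite) :
    ∃ f : ℕ → ℕ, StrictMono f ∧ Set.range f = X := by
  have := hX.to_subtype
  refine ⟨fun n => ((Nat.Subtype.orderIsoOfNat X) n : ℕ), ?_, ?_⟩
  · intro a b hab
    exact (Nat.Subtype.orderIsoOfNat X).strictMono hab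
  · ext x
    constructor
    · rintro ⟨n, rfl⟩
      exact ((Nat.Subtype.orderIsoOfNat X) n).2
    · intro hx
      obtain ⟨n, hn⟩ := (Nat.Subtype.orderIsoOfNat X).surjective ⟨x, hx⟩
      exact ⟨n, congrArg Subtype.val hn⟩

theorem exists_split {X : Set ℕ} (hX : X.Infinite) :
    ∃ P Q : Set ℕ, P ∪ Q = X ∧ Disjoint P Q ∧ P.Infinite ∧ Q.Infinite := by
  obtain ⟨f, hf, hr⟩ := exists_enum hX
  have hfi := hf.injective
  refine ⟨f '' {n | Even n}, f '' {n | ¬ Even n}, ?_, ?_, ?_, ?_⟩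
  · rw [← Set.image_union, ← hr, ← Set.image_univ]
    congr 1
    ext n
    simp [em, -Nat.not_even_iff_odd]
  · rw [Set.disjoint_image_iff hfi]
    rw [Set.disjoint_left]
    intro n hn hn'
    exact hn' hn
  · refine Set.Infinite.image hfi.injOn ?_
    refine Set.infinite_of_injective_forall_mem (f := fun n : ℕ => 2 * n) ?_ ?_
    · intro a b hab
      simpa using hab
    · intro n
      simp
  · refine Set.Infinite.image hfi.injOn ?_
    refine Set.infinite_of_injective_forall_mem (f := fun n : ℕ => 2 * n + 1) ?_ ?_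
    · intro a b hab
      simpa using hab
    · intro n
      simp

/-- `Bad θ`: some `θ`-sequence of dense open families has an intersection that is not dense. -/
def Bad (θ : Ordinal.{0}) : Prop :=
  ∃ O : Ordinal.{0} → Set (Set ℕ), (∀ γ, DO (O γ)) ∧
    ∃ X : Set ℕ, X.Infinite ∧ ∀ Y ⊆ X, Y.Infinite → ∃ γ < θ, Y ∉ O γ

theorem exists_bad : ∃ θ, Bad θ := by
  classical
  let r : Set ℕ → Set ℕ → Prop := WellOrderingRel
  refine ⟨Ordinal.type r, fun γ => {Y | ∀ X : Set ℕ, X.Infinite → Ordinal.typein r X = γ →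
    (X \ Y).Infinite}, ?_, Set.univ, Set.infinite_univ, ?_⟩
  · intro γ
    constructor
    · intro X hX Y hY hYX Z hZ hZγ
      have h1 := hX Z hZ hZγ
      intro hf
      apply h1
      refine (hf.union hYX).subset ?_
      intro x hx
      by_cases hxY : x ∈ Y
      · exact Or.inr ⟨hxY, hx.2⟩
      · exact Or.inl ⟨hx.1, hxY⟩
    · intro X hX
      by_cases hex : ∃ Z : Set ℕ, Z.Infinite ∧ Ordinal.typein r Z = γ
      · obtain ⟨Z, hZ, hZγ⟩ := hex
        have huniq : ∀ Z' : Set ℕ, Ordinal.typein r Z' = γ → Z' = Z := by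
          intro Z' hZ'
          exact Ordinal.typein_injective r (hZ'.trans hZγ.symm)
        by_cases hi : (Z \ X).Infinite
        · refine ⟨X, subset_rfl, hX, ?_⟩
          intro Z' hZ'inf hZ'
          rw [huniq Z' hZ']
          exact hi
        · rw [Set.not_infinite] at hi
          have hZX : (Z ∩ X).Infinite := by
            intro hf
            apply hZ
            rw [← Set.sdiff_union_inter Z X]
            exact hi.union hf
          obtain ⟨P, Q, hPQ, hd, hP, hQ⟩ := exists_split hZX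
          refine ⟨P, ?_, hP, ?_⟩
          · intro x hx
            have : x ∈ Z ∩ X := by rw [← hPQ]; exact Or.inl hx
            exact this.2
          · intro Z' hZ'inf hZ'
            rw [huniq Z' hZ']
            refine hQ.mono ?_
            intro x hx
            have : x ∈ Z ∩ X := by rw [← hPQ]; exact Or.inr hx
            exact ⟨this.1, fun hxP => (Set.disjoint_left.mp hd hxP) hx⟩
      · refine ⟨X, subset_rfl, hX, ?_⟩
        intro Z hZ hZγ
        exact absurd ⟨Z, hZ, hZγ⟩ hex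
  · intro Y _ hY
    refine ⟨Ordinal.typein r Y, Ordinal.typein_lt_type r Y, ?_⟩
    intro hc
    have := hc Y hY rfl
    simp at this

/-- `θ` is the least bad ordinal (the distributivity number, as an ordinal). -/
structure IsTheta (θ : Ordinal.{0}) : Prop where
  bad : Bad θ
  min : ∀ α < θ, ¬ Bad α

theorem exists_theta : ∃ θ, IsTheta θ := by
  obtain ⟨θ, h1, h2⟩ := WellFounded.has_min (wellFounded_lt (α := Ordinal.{0})) {θ | Bad θ} exists_bad
  exact ⟨θ, h1, fun α hα hb => h2 α hb hα⟩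

theorem DO.of_not_bad {α : Ordinal.{0}} (hα : ¬ Bad α) {O : Ordinal.{0} → Set (Set ℕ)}
    (hO : ∀ γ < α, DO (O γ)) : DO {Y | ∀ γ < α, Y ∈ O γ} := by
  classical
  constructor
  · intro X hX Y hY hYX γ hγ
    exact (hO γ hγ).opn X (hX γ hγ) Y hY hYX
  · intro X hX
    by_contra hc
    apply hα
    refine ⟨fun γ => if γ < α then O γ else Set.univ, ?_, X, hX, ?_⟩
    · intro γ
      by_cases hγ : γ < α
      · simpa [hγ] using hO γ hγ
      · simpa [hγ] using DO.univ
    · intro Y hYX hY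
      by_contra hc2
      apply hc
      refine ⟨Y, hYX, hY, ?_⟩
      intro γ hγ
      by_contra hc3
      apply hc2
      exact ⟨γ, hγ, by simpa [hγ] using hc3⟩

namespace IsTheta

variable {θ : Ordinal.{0}} (hθ : IsTheta θ)
include hθ

theorem DO_lt {α : Ordinal.{0}} (hα : α < θ) {O : Ordinal.{0} → Set (Set ℕ)}
    (hO : ∀ γ < α, DO (O γ)) : DO {Y | ∀ γ < α, Y ∈ O γ} :=
  DO.of_not_bad (hθ.min α hα) hO

theorem DO_le {α : Ordinal.{0}} (hα : α < θ) {O : Ordinal.{0} → Set (Set ℕ)}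
    (hO : ∀ γ ≤ α, DO (O γ)) : DO {Y | ∀ γ ≤ α, Y ∈ O γ} := by
  have h := (hθ.DO_lt hα (fun γ hγ => hO γ hγ.le)).inter (hO α le_rfl)
  have he : {Y | ∀ γ < α, Y ∈ O γ} ∩ O α = {Y | ∀ γ ≤ α, Y ∈ O γ} := by
    ext Y
    constructor
    · rintro ⟨h1, h2⟩ γ hγ
      rcases hγ.lt_or_eq with h | h
      · exact h1 γ h
      · rw [h]; exact h2
    · intro h
      exact ⟨fun γ hγ => h γ hγ.le, h α le_rfl⟩
  rwa [he] at h

theorem bound {γ : ℕ → Ordinal.{0}} (hγ : ∀ n, γ n < θ) : ∃ δ < θ, ∀ n, γ n < δ := by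
  by_contra hc
  push Not at hc
  obtain ⟨O, hO, X, hX, hbad⟩ := hθ.bad
  have h1 : ∀ n, DO {Y | ∀ δ ≤ γ n, Y ∈ O δ} := fun n => hθ.DO_le (hγ n) (fun δ _ => hO δ)
  obtain ⟨Y, hYX, hY, hYO⟩ := (DO.iInter_nat h1).dns X hX
  obtain ⟨δ, hδ, hYδ⟩ := hbad Y hYX hY
  obtain ⟨n, hn⟩ := hc δ hδ
  exact hYδ (hYO n δ hn)

theorem exists_gt {γ : Ordinal.{0}} (hγ : γ < θ) : ∃ δ < θ, γ < δ := by
  obtain ⟨δ, h1, h2⟩ := hθ.bound (γ := fun _ => γ) (fun _ => hγ)
  exact ⟨δ, h1, h2 0⟩

theorem succ_lt {γ : Ordinal.{0}} (hγ : γ < θ) : γ + 1 < θ := by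
  obtain ⟨δ, h1, h2⟩ := hθ.exists_gt hγ
  exact lt_of_le_of_lt (Order.add_one_le_of_lt h2) h1

theorem pos : 0 < θ := by
  rcases eq_or_ne θ 0 with h | h
  · exfalso
    obtain ⟨O, hO, X, hX, hbad⟩ := hθ.bad
    obtain ⟨γ, hγ, _⟩ := hbad X subset_rfl hX
    rw [h] at hγ
    exact absurd hγ (not_lt.mpr bot_le)
  · exact bot_lt_iff_ne_bot.mpr h

/-- A decreasing sequence of dense open families of length `θ` with empty intersection. -/
theorem exists_empty : ∃ O : Ordinal.{0} → Set (Set ℕ), (∀ γ < θ, DO (O γ)) ∧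
    (∀ γ γ', γ ≤ γ' → O γ' ⊆ O γ) ∧ ∀ Y : Set ℕ, Y.Infinite → ∃ γ < θ, Y ∉ O γ := by
  obtain ⟨O, hO, X, hX, hbad⟩ := hθ.bad
  obtain ⟨e, he, hr⟩ := exists_enum hX
  have hei := he.injective
  refine ⟨fun γ => {Y | ∀ δ ≤ γ, e '' Y ∈ O δ}, ?_, ?_, ?_⟩
  · intro γ hγ
    have hD := hθ.DO_le hγ (fun δ _ => hO δ)
    constructor
    · intro Z hZ Y hY hYZ δ hδ
      refine (hO δ).opn _ (hZ δ hδ) _ (hY.image hei.injOn) ?_
      refine (Set.Finite.image e hYZ).subset ?_
      rintro _ ⟨⟨y, hy, rfl⟩, hn⟩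
      exact ⟨y, ⟨hy, fun hz => hn ⟨y, hz, rfl⟩⟩, rfl⟩
    · intro Z hZ
      obtain ⟨W, h1, h2, h3⟩ := hD.dns (e '' Z) (hZ.image hei.injOn)
      have hW : e '' (e ⁻¹' W) = W := by
        apply Set.image_preimage_eq_of_subset
        exact h1.trans (Set.image_subset_range _ _)
      refine ⟨e ⁻¹' W, ?_, ?_, ?_⟩
      · intro x hx
        obtain ⟨z, hz, hzx⟩ := h1 hx
        rwa [← hei hzx]
      · intro hf
        apply h2
        rw [← hW]
        exact hf.image e
      · intro δ hδ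
        rw [hW]
        exact h3 δ hδ
  · intro γ γ' hγ Y hY δ hδ
    exact hY δ (hδ.trans hγ)
  · intro Y hY
    obtain ⟨γ, hγ, h⟩ := hbad (e '' Y) (by rw [← hr]; exact Set.image_subset_range _ _)
      (hY.image hei.injOn)
    exact ⟨γ, hγ, fun hc => h (hc γ le_rfl)⟩

end IsTheta

end Pool.Agent.KSec
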