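import Pool.Agent.KSec.Words

/-!
Density of determined tuples (Lemma D).
-/

open scoped Pointwise

namespace Pool.Agent.KSec

/-- The group generated by `t` and all generators of level below `α`. -/
def HH (t : Equiv.Perm ℕ) (𝒢 : Ordinal.{0} → Set Gen) (α : Ordinal.{0}) :
    Subgroup (Equiv.Perm ℕ) :=
  Subgroup.closure ({t} ∪ {g | ∃ β < α, ∃ x ∈ 𝒢 β, x.g = g})

section HH

variable {t : Equiv.Perm ℕ} {𝒢 : Ordinal.{0} → Set Gen}

theorem HH_mono {α β : Ordinal.{0}} (h : α ≤ β) : HH t 𝒢 α ≤ HH t 𝒢 β := by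
  apply Subgroup.closure_mono
  rintro g (hg | ⟨γ, hγ, hx⟩)
  · exact Or.inl hg
  · exact Or.inr ⟨γ, hγ.trans_le h, hx⟩

theorem t_mem_HH (α : Ordinal.{0}) : t ∈ HH t 𝒢 α := Subgroup.subset_closure (Or.inl rfl)

theorem zpowers_le_HH (α : Ordinal.{0}) : Subgroup.zpowers t ≤ HH t 𝒢 α := by
  rw [Subgroup.zpowers_le]
  exact t_mem_HH α

theorem HH_succ (γ : Ordinal.{0}) : HH t 𝒢 (γ + 1) =
    Subgroup.closure ((HH t 𝒢 γ : Set (Equiv.Perm ℕ)) ∪ {g | ∃ x ∈ 𝒢 γ, x.g = g}) := by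
  apply le_antisymm
  · unfold HH
    rw [Subgroup.closure_le]
    rintro g (hg | ⟨β, hβ, hx⟩)
    · apply Subgroup.subset_closure
      left
      exact Subgroup.subset_closure (Or.inl hg)
    · rcases (Order.lt_add_one_iff.mp hβ).lt_or_eq with h | h
      · apply Subgroup.subset_closure
        left
        exact Subgroup.subset_closure (Or.inr ⟨β, h, hx⟩)
      · subst h
        exact Subgroup.subset_closure (Or.inr hx)
  · rw [Subgroup.closure_le]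
    rintro g (hg | ⟨x, hx, rfl⟩)
    · exact HH_mono (Order.le_succ γ) hg
    · exact Subgroup.subset_closure (Or.inr ⟨γ, Order.lt_add_one_iff.mpr le_rfl, x, hx, rfl⟩)

theorem HH_cases {α : Ordinal.{0}} {h : Equiv.Perm ℕ} (hh : h ∈ HH t 𝒢 α) :
    h ∈ Subgroup.zpowers t ∨ ∃ γ < α, h ∈ HH t 𝒢 (γ + 1) := by
  unfold HH at hh
  induction hh using Subgroup.closure_induction with
  | mem g hg =>
    rcases hg with hg | ⟨γ, hγ, hx⟩
    · left
      rw [Set.mem_singleton_iff.mp hg]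
      exact Subgroup.mem_zpowers t
    · right
      exact ⟨γ, hγ, Subgroup.subset_closure (Or.inr ⟨γ, Order.lt_add_one_iff.mpr le_rfl, hx⟩)⟩
  | one => exact Or.inl (Subgroup.one_mem _)
  | mul a b _ _ ha hb =>
    rcases ha with ha | ⟨γ, hγ, ha⟩
    · rcases hb with hb | ⟨δ, hδ, hb⟩
      · exact Or.inl (Subgroup.mul_mem _ ha hb)
      · exact Or.inr ⟨δ, hδ, Subgroup.mul_mem _ (zpowers_le_HH _ ha) hb⟩
    · rcases hb with hb | ⟨δ, hδ, hb⟩
      · exact Or.inr ⟨γ, hγ, Subgroup.mul_mem _ ha (zpowers_le_HH _ hb)⟩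
      · rcases le_total γ δ with hle | hle
        · exact Or.inr ⟨δ, hδ, Subgroup.mul_mem _ (HH_mono (add_le_add_left hle 1) ha) hb⟩
        · exact Or.inr ⟨γ, hγ, Subgroup.mul_mem _ ha (HH_mono (add_le_add_left hle 1) hb)⟩
  | inv a _ ha =>
    rcases ha with ha | ⟨γ, hγ, ha⟩
    · exact Or.inl (Subgroup.inv_mem _ ha)
    · exact Or.inr ⟨γ, hγ, Subgroup.inv_mem _ ha⟩

theorem HH_word {γ : Ordinal.{0}} {h : Equiv.Perm ℕ} (hh : h ∈ HH t 𝒢 (γ + 1)) :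
    ∃ n, W (HH t 𝒢 γ) (𝒢 γ) n h := by
  rw [HH_succ] at hh
  exact W.of_mem hh

/-- Cofinitarity of the whole chain. -/
theorem HH_cof {ι' : Type} {τ : ℕ → ι'} (ht : Cof (Subgroup.zpowers t)) (α : Ordinal.{0})
    (P : ∀ γ < α, GP τ (HH t 𝒢 γ) (𝒢 γ)) : Cof (HH t 𝒢 α) := by
  induction α using WellFoundedLT.induction with
  | _ α ih =>
    intro h hh h1
    rcases HH_cases hh with hz | ⟨γ, hγ, hh'⟩
    · exact ht h hz h1
    · have h2 := ih γ hγ (fun δ hδ => P δ (hδ.trans hγ))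
      have h3 := Cof.closure (P γ hγ) h2
      rw [← HH_succ] at h3
      exact h3 h hh' h1

theorem HH_congr {𝒢' : Ordinal.{0} → Set Gen} {α : Ordinal.{0}}
    (h : ∀ β < α, 𝒢 β = 𝒢' β) : HH t 𝒢 α = HH t 𝒢' α := by
  unfold HH
  congr 2
  ext g
  constructor
  · rintro ⟨β, hβ, hx⟩
    exact ⟨β, hβ, by rwa [← h β hβ]⟩
  · rintro ⟨β, hβ, hx⟩
    exact ⟨β, hβ, by rwa [h β hβ]⟩

end HH

/-- Sparseness of `X` with respect to `h`. -/
def Sp (h : Equiv.Perm ℕ) (X : Set ℕ) : Prop := {x | x ∈ X ∧ ∃ y ∈ X, y < x ∧ h x ≤ y}.Finite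

theorem le_finite (h : Equiv.Perm ℕ) (a : ℕ) : {x | h x ≤ a}.Finite :=
  (Set.finite_le_nat a).preimage h.injective.injOn

theorem DO_Sp (h : Equiv.Perm ℕ) : DO {X | Sp h X} := by
  constructor
  · intro X hX Y hY hYX
    have h1 : (⋃ y ∈ Y \ X, {x | h x ≤ y}).Finite :=
      hYX.biUnion (fun y _ => le_finite h y)
    refine ((hYX.union hX).union h1).subset ?_
    rintro x ⟨hx, y, hy, hyx, hxy⟩
    by_cases hxX : x ∈ X
    · by_cases hyX : y ∈ X
      · exact Or.inl (Or.inr ⟨hxX, y, hyX, hyx, hxy⟩)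
      · right
        simp only [Set.mem_iUnion]
        exact ⟨y, ⟨hy, hyX⟩, hxy⟩
    · exact Or.inl (Or.inl ⟨hx, hxX⟩)
  · intro X hX
    have hex : ∀ a, ∃ b, b ∈ X ∧ a < b ∧ ∀ x, b ≤ x → a < h x := by
      intro a
      obtain ⟨M, hM⟩ := (le_finite h a).bddAbove
      obtain ⟨b, hb, hb'⟩ := hX.exists_gt (max a M)
      refine ⟨b, hb, (le_max_left _ _).trans_lt hb', ?_⟩
      intro x hx
      by_contra hc
      have h1 : x ≤ M := hM (not_lt.mp hc)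
      have h2 := (le_max_right a M).trans_lt hb'
      omega
    choose F hF1 hF2 hF3 using hex
    let y : ℕ → ℕ := fun n => Nat.rec (F 0) (fun _ b => F b) n
    have hmem : ∀ n, y n ∈ X := by
      intro n
      cases n with
      | zero => exact hF1 _
      | succ m => exact hF1 _
    have hlt : ∀ n, y n < y (n + 1) := fun n => hF2 _
    have hmono : StrictMono y := strictMono_nat_of_lt_succ hlt
    refine ⟨Set.range y, ?_, Set.infinite_range_of_injective hmono.injective, ?_⟩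
    · rintro _ ⟨n, rfl⟩
      exact hmem n
    · show Set.Finite _
      convert Set.finite_empty (α := ℕ)
      rw [Set.eq_empty_iff_forall_notMem]
      rintro x ⟨⟨n, rfl⟩, _, ⟨m, rfl⟩, h1, h2⟩
      have hmn : m < n := hmono.lt_iff_lt.mp h1
      obtain ⟨n', rfl⟩ : ∃ n', n = n' + 1 := ⟨n - 1, by omega⟩
      have h3 : y m ≤ y n' := hmono.monotone (by omega)
      have h4 : y n' < h (y (n' + 1)) := hF3 (y n') _ le_rfl
      omega

theorem DO_color {ι' : Type} [Finite ι'] (τ : ℕ → ι') (w : Equiv.Perm ℕ) :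
    DO {X | ∃ j, AL (w • X) (τ ⁻¹' {j})} := by
  constructor
  · rintro X ⟨j, hj⟩ Y hY hYX
    exact ⟨j, (hYX.smul w).trans hj⟩
  · intro X hX
    have h1 : ∃ j, (X ∩ w⁻¹ • (τ ⁻¹' {j})).Infinite := by
      by_contra hc
      push Not at hc
      apply hX
      have : X ⊆ ⋃ j, (X ∩ w⁻¹ • (τ ⁻¹' {j})) := by
        intro x hx
        simp only [Set.mem_iUnion]
        refine ⟨τ (w x), hx, ?_⟩
        rw [Set.mem_smul_set_iff_inv_smul_mem]
        simp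
      exact (Set.finite_iUnion (fun j => Set.not_infinite.mp (by simpa using hc j))).subset this
    obtain ⟨j, hj⟩ := h1
    refine ⟨_, Set.inter_subset_left, hj, j, ?_⟩
    rw [AL.smul_iff]
    exact AL.of_subset Set.inter_subset_right

/-- `Y` is settled at level `γ`. -/
def Settled (H : Subgroup (Equiv.Perm ℕ)) (𝒢 : Set Gen) (Y : Set ℕ) : Prop :=
  (∃ x ∈ 𝒢, ∃ δ, ∃ h ∈ H, AL (h • Y) (x.K δ)) ∨ (∀ x ∈ 𝒢, ∀ δ, ∀ h ∈ H, (h • Y ∩ x.K δ).Finite)

theorem DO_Settled (H : Subgroup (Equiv.Perm ℕ)) (𝒢 : Set Gen) (w : Equiv.Perm ℕ) :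
    DO {X | Settled H 𝒢 (w • X)} := by
  apply DO.smul (O := {X | Settled H 𝒢 X})
  constructor
  · rintro X hX Y hY hYX
    rcases hX with ⟨x, hx, δ, h, hh, hA⟩ | hX
    · exact Or.inl ⟨x, hx, δ, h, hh, (hYX.smul h).trans hA⟩
    · exact Or.inr (fun x hx δ h hh => (hYX.smul h).inter_finite (hX x hx δ h hh))
  · intro X hX
    by_cases hex : ∃ x ∈ 𝒢, ∃ δ, ∃ h ∈ H, (h • X ∩ x.K δ).Infinite
    · obtain ⟨x, hx, δ, h, hh, hi⟩ := hex
      rw [inter_smul_infinite] at hi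
      refine ⟨_, Set.inter_subset_left, hi, Or.inl ⟨x, hx, δ, h, hh, ?_⟩⟩
      rw [AL.smul_iff]
      exact AL.of_subset Set.inter_subset_right
    · push Not at hex
      exact ⟨X, subset_rfl, hX, Or.inr (fun x hx δ h hh =>
        Set.not_infinite.mp (by simpa using hex x hx δ h hh))⟩

theorem GP.pos_unique {ι' : Type} {τ : ℕ → ι'} {H : Subgroup (Equiv.Perm ℕ)} {𝒢 : Set Gen}
    (P : GP τ H 𝒢) {Y : Set ℕ} {x x' : Gen} (hx : x ∈ 𝒢) (hx' : x' ∈ 𝒢) {h k : Equiv.Perm ℕ}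
    (hh : h ∈ H) (hk : k ∈ H) {δ δ' : Bool} (h1 : AL (h • Y) (x.K δ))
    (h2 : (k • Y ∩ x'.K δ').Infinite) : x = x' ∧ δ = δ' ∧ h = k := by
  rw [inter_smul_infinite] at h2
  rw [AL.smul_iff] at h1
  have h3 : AL (Y ∩ k⁻¹ • x'.K δ') (h⁻¹ • x.K δ) := AL.mono_left Set.inter_subset_left h1
  have h4 : AL (Y ∩ k⁻¹ • x'.K δ') (k⁻¹ • x'.K δ') := AL.of_subset Set.inter_subset_right
  have h5 := h3.inter_infinite2 h4 h2
  have h6 : ((k * h⁻¹) • x.K δ ∩ x'.K δ').Infinite := by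
    rw [inter_smul_infinite]
    have := (infinite_smul h).mpr h5
    rw [Set.smul_set_inter, smul_inv_smul, smul_smul] at this
    have he : (k * h⁻¹)⁻¹ = h * k⁻¹ := by group
    rwa [he]
  obtain ⟨h7, h8, h9⟩ := P.p2 x hx x' hx' (k * h⁻¹) (H.mul_mem hk (H.inv_mem hh)) δ δ' h6
  refine ⟨h7, h8, ?_⟩
  have : k = h := by
    rw [mul_inv_eq_one] at h9
    exact h9
  exact this.symm

/-- Relevant words for a tuple `X`. -/
inductive Rel (t : Equiv.Perm ℕ) (𝒢 : Ordinal.{0} → Set Gen) (α : Ordinal.{0}) {ι : Type}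
    (X : ι → Set ℕ) : Equiv.Perm ℕ → Ordinal.{0} → Prop
  | one : Rel t 𝒢 α X 1 α
  | step {w : Equiv.Perm ℕ} {β γ : Ordinal.{0}} {i : ι} {x : Gen} {δ : Bool} {h : Equiv.Perm ℕ}
      (hw : Rel t 𝒢 α X w β) (hγ : γ < β) (hx : x ∈ 𝒢 γ) (hh : h ∈ HH t 𝒢 γ)
      (hA : AL ((h * w) • X i) (x.K (!δ))) : Rel t 𝒢 α X (x.act δ * h * w) (γ + 1)

theorem Rel.le {t : Equiv.Perm ℕ} {𝒢 : Ordinal.{0} → Set Gen} {α : Ordinal.{0}} {ι : Type}
    {X : ι → Set ℕ} {w : Equiv.Perm ℕ} {β : Ordinal.{0}} (h : Rel t 𝒢 α X w β) : β ≤ α := by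
  induction h with
  | one => exact le_rfl
  | step hw hγ hx hh hA ih => exact (Order.add_one_le_of_lt hγ).trans ih

/-- The conditions required along relevant words. -/
def Cond (t : Equiv.Perm ℕ) (𝒢 : Ordinal.{0} → Set Gen) {ι' : Type} (τ : ℕ → ι')
    (p : Equiv.Perm ℕ × Ordinal.{0}) : Set (Set ℕ) :=
  {Y | (∀ γ < p.2, Settled (HH t 𝒢 γ) (𝒢 γ) (p.1 • Y)) ∧
    (∀ n : ℤ, ∃ j, AL ((t ^ n * p.1) • Y) (τ ⁻¹' {j})) ∧ (∀ n : ℤ, Sp (t ^ n * p.1) Y)}

theorem DO_Cond {θ : Ordinal.{0}} (hθ : IsTheta θ) (t : Equiv.Perm ℕ)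
    (𝒢 : Ordinal.{0} → Set Gen) {ι' : Type} [Finite ι'] (τ : ℕ → ι')
    (p : Equiv.Perm ℕ × Ordinal.{0}) (hp : p.2 < θ) : DO (Cond t 𝒢 τ p) := by
  have h1 := hθ.DO_lt hp (O := fun γ => {Y | Settled (HH t 𝒢 γ) (𝒢 γ) (p.1 • Y)})
    (fun γ _ => DO_Settled _ _ _)
  have h2 := DO.iInter_countable (O := fun n : ℤ => {X | ∃ j, AL ((t ^ n * p.1) • X) (τ ⁻¹' {j})})
    (fun n => DO_color τ _)
  have h3 := DO.iInter_countable (O := fun n : ℤ => {X | Sp (t ^ n * p.1) X}) (fun n => DO_Sp _)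
  exact h1.inter (h2.inter h3)

/-- The properties we want for a permutation `u` and a tuple `X`. -/
def Pr {ι ι' : Type} (τ : ℕ → ι') (X : ι → Set ℕ) (u : Equiv.Perm ℕ) : Prop :=
  (∀ i, Sp u (X i)) ∧ ∃ j, ∀ i, (u • X i ∩ τ ⁻¹' {j}).Finite

theorem Pr_of_Cond {t : Equiv.Perm ℕ} {𝒢 : Ordinal.{0} → Set Gen} {ι ι' : Type} [Fintype ι]
    [Fintype ι'] (hc : Fintype.card ι < Fintype.card ι') {τ : ℕ → ι'} {X : ι → Set ℕ}
    {p : Equiv.Perm ℕ × Ordinal.{0}} (hX : ∀ i, X i ∈ Cond t 𝒢 τ p) {h : Equiv.Perm ℕ}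
    (hh : h ∈ Subgroup.zpowers t) : Pr τ X (h * p.1) := by
  obtain ⟨n, rfl⟩ := Subgroup.mem_zpowers_iff.mp hh
  refine ⟨fun i => (hX i).2.2 n, ?_⟩
  have h1 := fun i => (hX i).2.1 n
  choose f hf using h1
  have hns : ¬ Function.Surjective f := by
    intro hs
    exact absurd (Fintype.card_le_of_surjective f hs) (not_le.mpr hc)
  rw [Function.Surjective] at hns
  push Not at hns
  obtain ⟨j, hj⟩ := hns
  refine ⟨j, fun i => ?_⟩
  apply (hf i).inter_finite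
  convert Set.finite_empty (α := ℕ)
  rw [Set.eq_empty_iff_forall_notMem]
  rintro y ⟨h2, h3⟩
  exact hj i (Set.mem_singleton_iff.mp h2 ▸ Set.mem_singleton_iff.mp h3)

theorem main_cap {t : Equiv.Perm ℕ} {𝒢 : Ordinal.{0} → Set Gen} {ι ι' : Type} [Fintype ι]
    [Fintype ι'] (hc : Fintype.card ι < Fintype.card ι') {τ : ℕ → ι'} {α : Ordinal.{0}}
    (P : ∀ γ < α, GP τ (HH t 𝒢 γ) (𝒢 γ)) {X : ι → Set ℕ}
    (hX : ∀ w β, Rel t 𝒢 α X w β → ∀ i, X i ∈ Cond t 𝒢 τ (w, β)) (γ : Ordinal.{0}) :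
    ∀ n h, W (HH t 𝒢 γ) (𝒢 γ) n h → ∀ w β, Rel t 𝒢 α X w β → γ < β → Pr τ X (h * w) := by
  classical
  induction γ using WellFoundedLT.induction with
  | _ γ IH =>
    have Q : ∀ h ∈ HH t 𝒢 γ, ∀ w β, Rel t 𝒢 α X w β → γ ≤ β → Pr τ X (h * w) := by
      intro h hh w β hR hβ
      rcases HH_cases hh with hz | ⟨γ', hγ', hh'⟩
      · exact Pr_of_Cond hc (hX w β hR) hz
      · obtain ⟨n, hn⟩ := HH_word hh'
        exact IH γ' hγ' n h hn w β hR (hγ'.trans_le hβ)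
    intro n
    induction n using Nat.strong_induction_on with
    | _ n ihn =>
      intro h hW w β hR hγβ
      have hγα : γ < α := hγβ.trans_le hR.le
      by_cases hmin : ∀ m < n, ¬ W (HH t 𝒢 γ) (𝒢 γ) m h
      · rcases n with _ | m
        · cases hW with
          | zero hh => exact Q h hh w β hR hγβ.le
        · obtain ⟨z, x, δ, k₀, hz, hx, hk₀, rfl⟩ := hW.peel
          by_cases hd : ∃ i, AL ((k₀ * w) • X i) (x.K (!δ))
          · obtain ⟨i, hi⟩ := hd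
            have h1 := Rel.step hR hγβ hx hk₀ hi
            have h2 := ihn m (Nat.lt_succ_self m) z hz _ _ h1 (Order.lt_add_one_iff.mpr le_rfl)
            simpa [mul_assoc] using h2
          · push Not at hd
            have hfin : ∀ i, ((k₀ * w) • X i ∩ x.K (!δ)).Finite := by
              intro i
              by_contra hinf
              rcases (hX w β hR i).1 γ hγβ with ⟨x', hx', δ', h', hh', hA⟩ | hall
              · have hinf' : (k₀ • (w • X i) ∩ x.K (!δ)).Infinite := by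
                  rw [smul_smul]; exact hinf
                obtain ⟨h3, h4, h5⟩ := (P γ hγα).pos_unique hx' hx hh' hk₀ hA hinf'
                subst h3 h4 h5
                apply hd i
                rw [mul_smul]
                exact hA
              · apply hinf
                rw [mul_smul]
                exact hall x hx _ k₀ hk₀
            obtain ⟨y, ε, k, hRW⟩ := hz.toRW hx δ hk₀
            have hasc := hRW.ascend (P γ hγα) hmin
            obtain ⟨hy, hk, -⟩ := hRW.last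
            set h := z * x.act δ * k₀ with hhdef
            have hAL : ∀ i, AL ((h * w) • X i) (k • y.K ε) := by
              intro i
              have hf1 : ((fun v => h v) '' {v | k₀ v ∉ x.K (!δ) ∧ ¬ (h v ∈ k • y.K ε ∧ k₀ v < h v)}).Finite :=
                hasc.image _
              have hf2 : ((fun v => (h * k₀⁻¹) v) '' ((k₀ * w) • X i ∩ x.K (!δ))).Finite :=
                (hfin i).image _
              refine (hf1.union hf2).subset ?_
              rintro _ ⟨⟨a, ha, rfl⟩, hn⟩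
              by_cases h3 : k₀ (w a) ∈ x.K (!δ)
              · right
                refine ⟨k₀ (w a), ⟨⟨a, ha, rfl⟩, h3⟩, ?_⟩
                simp
              · left
                exact ⟨w a, ⟨h3, fun h4 => hn h4.1⟩, rfl⟩
            constructor
            · intro i
              have h3 := (Q k₀ hk₀ w β hR hγβ.le).1 i
              have hf1 : ((fun a => w a) ⁻¹' {v | k₀ v ∉ x.K (!δ) ∧ ¬ (h v ∈ k • y.K ε ∧ k₀ v < h v)}).Finite :=
                hasc.preimage w.injective.injOn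
              have hf2 : ((fun a => (k₀ * w) a) ⁻¹' ((k₀ * w) • X i ∩ x.K (!δ))).Finite :=
                (hfin i).preimage (Equiv.injective _).injOn
              refine ((hf1.union hf2).union h3).subset ?_
              rintro a ⟨ha, b, hb, hba, hab⟩
              by_cases h4 : k₀ (w a) ∈ x.K (!δ)
              · left; right
                exact ⟨⟨a, ha, rfl⟩, h4⟩
              · by_cases h5 : k₀ (w a) < h (w a)
                · right
                  refine ⟨ha, b, hb, hba, ?_⟩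
                  have h6 : h (w a) ≤ b := hab
                  exact (h5.le.trans h6)
                · left; left
                  exact ⟨h4, fun h6 => h5 h6.2⟩
            · obtain ⟨j, hj⟩ := (P γ hγα).p3 y hy k hk ε
              exact ⟨j, fun i => (hAL i).inter_finite hj⟩
      · push Not at hmin
        obtain ⟨m, hm, hWm⟩ := hmin
        exact ihn m hm h hWm w β hR hγβ

theorem main_cap' {t : Equiv.Perm ℕ} {𝒢 : Ordinal.{0} → Set Gen} {ι ι' : Type} [Fintype ι]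
    [Fintype ι'] (hc : Fintype.card ι < Fintype.card ι') {τ : ℕ → ι'} {α : Ordinal.{0}}
    (P : ∀ γ < α, GP τ (HH t 𝒢 γ) (𝒢 γ)) {X : ι → Set ℕ}
    (hX : ∀ w β, Rel t 𝒢 α X w β → ∀ i, X i ∈ Cond t 𝒢 τ (w, β)) :
    ∀ h ∈ HH t 𝒢 α, Pr τ X h := by
  intro h hh
  have h1 : Pr τ X (h * 1) := by
    rcases HH_cases hh with hz | ⟨γ, hγ, hh'⟩
    · exact Pr_of_Cond hc (hX 1 α Rel.one) hz
    · obtain ⟨n, hn⟩ := HH_word hh'
      exact main_cap hc P hX γ n h hn 1 α Rel.one hγ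
  simpa using h1

/-- Smallness of an index set: dense open families indexed by it have dense open intersection. -/
def Small (J : Set (Equiv.Perm ℕ × Ordinal.{0})) : Prop :=
  ∀ O : Equiv.Perm ℕ × Ordinal.{0} → Set (Set ℕ), (∀ p ∈ J, DO (O p)) → DO {Y | ∀ p ∈ J, Y ∈ O p}

theorem small_singleton (p : Equiv.Perm ℕ × Ordinal.{0}) : Small {p} := by
  intro O hO
  have : {Y | ∀ q ∈ ({p} : Set (Equiv.Perm ℕ × Ordinal.{0})), Y ∈ O q} = O p := by
    ext Y; simp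
  rw [this]
  exact hO p rfl

/-- The next set of relevant words. -/
def nextF (t : Equiv.Perm ℕ) (𝒢 : Ordinal.{0} → Set Gen) {ι : Type} (X : ι → Set ℕ)
    (p : Equiv.Perm ℕ × Ordinal.{0}) (γ : Ordinal.{0}) (i : ι) :
    Set (Equiv.Perm ℕ × Ordinal.{0}) :=
  {q | ∃ x ∈ 𝒢 γ, ∃ δ, ∃ h ∈ HH t 𝒢 γ, AL ((h * p.1) • X i) (x.K (!δ)) ∧
    q = (x.act δ * h * p.1, γ + 1)}

def nextJ (t : Equiv.Perm ℕ) (𝒢 : Ordinal.{0} → Set Gen) {ι : Type} (X : ι → Set ℕ)
    (J : Set (Equiv.Perm ℕ × Ordinal.{0})) : Set (Equiv.Perm ℕ × Ordinal.{0}) :=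
  {q | ∃ p ∈ J, ∃ γ < p.2, ∃ i, q ∈ nextF t 𝒢 X p γ i}

theorem nextF_subsingleton {t : Equiv.Perm ℕ} {𝒢 : Ordinal.{0} → Set Gen} {ι ι' : Type}
    {τ : ℕ → ι'} {X : ι → Set ℕ} (hX : ∀ i, (X i).Infinite)
    {p : Equiv.Perm ℕ × Ordinal.{0}} {γ : Ordinal.{0}} (P : GP τ (HH t 𝒢 γ) (𝒢 γ)) {i : ι}
    {q q' : Equiv.Perm ℕ × Ordinal.{0}} (hq : q ∈ nextF t 𝒢 X p γ i)
    (hq' : q' ∈ nextF t 𝒢 X p γ i) : q = q' := by
  obtain ⟨x, hx, δ, h, hh, hA, rfl⟩ := hq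
  obtain ⟨x', hx', δ', h', hh', hA', rfl⟩ := hq'
  rw [mul_smul] at hA hA'
  have h1 : (h' • p.1 • X i ∩ x'.K (!δ')).Infinite :=
    hA'.inter_infinite ((infinite_smul _).mpr ((infinite_smul _).mpr (hX i)))
  obtain ⟨rfl, h3, rfl⟩ := P.pos_unique hx hx' hh hh' hA h1
  have : δ = δ' := by simpa using h3
  rw [this]

theorem small_next {θ : Ordinal.{0}} (hθ : IsTheta θ) {t : Equiv.Perm ℕ}
    {𝒢 : Ordinal.{0} → Set Gen} {ι ι' : Type} [Countable ι]
    {τ : ℕ → ι'} {α : Ordinal.{0}} (hα : α < θ)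
    (P : ∀ γ < α, GP τ (HH t 𝒢 γ) (𝒢 γ)) {X : ι → Set ℕ} (hX : ∀ i, (X i).Infinite)
    {J : Set (Equiv.Perm ℕ × Ordinal.{0})} (hJ : Small J) (hJα : ∀ p ∈ J, p.2 ≤ α) :
    Small (nextJ t 𝒢 X J) := by
  intro O hO
  have h1 : ∀ p ∈ J, DO {Y | ∀ γ < p.2, ∀ i, ∀ q ∈ nextF t 𝒢 X p γ i, Y ∈ O q} := by
    intro p hp
    apply hθ.DO_lt ((hJα p hp).trans_lt hα)
      (O := fun γ => {Y | ∀ i, ∀ q ∈ nextF t 𝒢 X p γ i, Y ∈ O q})
    intro γ hγ
    apply DO.iInter_countable (O := fun i => {Y | ∀ q ∈ nextF t 𝒢 X p γ i, Y ∈ O q})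
    intro i
    by_cases hne : (nextF t 𝒢 X p γ i).Nonempty
    · obtain ⟨q, hq⟩ := hne
      have he : {Y | ∀ q ∈ nextF t 𝒢 X p γ i, Y ∈ O q} = O q := by
        ext Y
        constructor
        · intro h; exact h q hq
        · intro h q' hq'
          rw [nextF_subsingleton hX (P γ (hγ.trans_le (hJα p hp))) hq' hq]
          exact h
      rw [he]
      exact hO q ⟨p, hp, γ, hγ, i, hq⟩
    · have he : {Y | ∀ q ∈ nextF t 𝒢 X p γ i, Y ∈ O q} = Set.univ := by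
        ext Y
        simp only [Set.mem_setOf_eq, Set.mem_univ, iff_true]
        intro q hq
        exact absurd ⟨q, hq⟩ hne
      rw [he]
      exact DO.univ
  have h2 := hJ (fun p => {Y | ∀ γ < p.2, ∀ i, ∀ q ∈ nextF t 𝒢 X p γ i, Y ∈ O q}) h1
  have he : {Y | ∀ p ∈ J, Y ∈ {Y | ∀ γ < p.2, ∀ i, ∀ q ∈ nextF t 𝒢 X p γ i, Y ∈ O q}} =
      {Y | ∀ q ∈ nextJ t 𝒢 X J, Y ∈ O q} := by
    ext Y
    constructor
    · rintro h q ⟨p, hp, γ, hγ, i, hq⟩
      exact h p hp γ hγ i q hq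
    · intro h p hp γ hγ i q hq
      exact h q ⟨p, hp, γ, hγ, i, hq⟩
  rwa [he] at h2

/-- Lemma D. -/
theorem exists_det {θ : Ordinal.{0}} (hθ : IsTheta θ) {t : Equiv.Perm ℕ}
    {𝒢 : Ordinal.{0} → Set Gen} {ι ι' : Type} [Fintype ι] [Fintype ι']
    (hc : Fintype.card ι < Fintype.card ι')
    {τ : ℕ → ι'} {α : Ordinal.{0}} (hα : α < θ)
    (P : ∀ γ < α, GP τ (HH t 𝒢 γ) (𝒢 γ)) (X : ι → Set ℕ) (hX : ∀ i, (X i).Infinite) :
    ∃ X' : ι → Set ℕ, (∀ i, X' i ⊆ X i) ∧ (∀ i, (X' i).Infinite) ∧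
      ∀ h ∈ HH t 𝒢 α, Pr τ X' h := by
  classical
  let St := {s : (ι → Set ℕ) × Set (Equiv.Perm ℕ × Ordinal.{0}) //
    (∀ i, (s.1 i).Infinite) ∧ Small s.2 ∧ ∀ p ∈ s.2, p.2 ≤ α}
  have hstep : ∀ s : St, ∃ s' : St, (∀ i, s'.1.1 i ⊆ s.1.1 i) ∧
      (∀ i, ∀ p ∈ s.1.2, s'.1.1 i ∈ Cond t 𝒢 τ p) ∧ s'.1.2 = nextJ t 𝒢 s'.1.1 s.1.2 := by
    rintro ⟨⟨X, J⟩, hX, hJ, hJα⟩
    have hD : DO {Y | ∀ p ∈ J, Y ∈ Cond t 𝒢 τ p} :=
      hJ _ (fun p hp => DO_Cond hθ t 𝒢 τ p ((hJα p hp).trans_lt hα))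
    have h1 := fun i => hD.dns (X i) (hX i)
    choose X' h2 h3 h4 using h1
    refine ⟨⟨⟨X', nextJ t 𝒢 X' J⟩, h3, small_next hθ hα P h3 hJ hJα, ?_⟩, h2, fun i p hp => h4 i p hp, rfl⟩
    rintro q ⟨p, hp, γ, hγ, i, x, hx, δ, h, hh, hA, rfl⟩
    exact (Order.add_one_le_of_lt hγ).trans (hJα p hp)
  choose F hF1 hF2 hF3 using hstep
  let s₀ : St := ⟨⟨X, {(1, α)}⟩, hX, small_singleton _, by
    intro p hp
    rw [Set.mem_singleton_iff.mp hp]⟩
  let S : ℕ → St := fun n => Nat.rec s₀ (fun _ s => F s) n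
  have hS0 : S 0 = s₀ := rfl
  have hSs : ∀ n, S (n + 1) = F (S n) := fun n => rfl
  have hps := fun i => pseudo (fun n => (S n).1.1 i) (fun n => (S n).2.1 i) (fun n => hF1 (S n) i)
  choose Y hY0 hY1 hY2 using hps
  refine ⟨Y, hY0, hY1, ?_⟩
  -- relevant words appear in some J_n
  have hrel : ∀ w β, Rel t 𝒢 α Y w β → ∃ n, (w, β) ∈ (S n).1.2 := by
    intro w β hR
    induction hR with
    | one => exact ⟨0, rfl⟩
    | @step w β γ i x δ h hw hγ hx hh hA ih =>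
      obtain ⟨n, hn⟩ := ih
      refine ⟨n + 1, ?_⟩
      rw [hSs, hF3]
      refine ⟨(w, β), hn, γ, hγ, i, x, hx, δ, h, hh, ?_, rfl⟩
      have hαγ : γ < α := hγ.trans_le ((S n).2.2.2 _ hn)
      have hcond := hF2 (S n) i (w, β) hn
      have hYn : AL (Y i) ((F (S n)).1.1 i) := hY2 i (n + 1)
      rw [mul_smul] at hA
      rcases hcond.1 γ hγ with ⟨x', hx', δ', h', hh', hA'⟩ | hall
      · have h1 : AL (h' • w • Y i) (x'.K δ') := ((hYn.smul w).smul h').trans hA'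
        have h2 : (h • w • Y i ∩ x.K (!δ)).Infinite :=
          hA.inter_infinite ((infinite_smul _).mpr ((infinite_smul _).mpr (hY1 i)))
        obtain ⟨rfl, h4, rfl⟩ := (P γ hαγ).pos_unique hx' hx hh' hh h1 h2
        rw [mul_smul, ← h4]
        exact hA'
      · exfalso
        have h1 := hall x hx (!δ) h hh
        have h2 : (h • w • Y i ∩ x.K (!δ)).Finite := (((hYn.smul w).smul h)).inter_finite h1
        exact (hA.inter_infinite ((infinite_smul _).mpr ((infinite_smul _).mpr (hY1 i)))) h2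
  apply main_cap' hc P
  intro w β hR i
  obtain ⟨n, hn⟩ := hrel w β hR
  have hcond := hF2 (S n) i (w, β) hn
  exact (DO_Cond hθ t 𝒢 τ (w, β) (hR.le.trans_lt hα)).opn _ hcond _ (hY1 i) (hY2 i (n + 1))

end Pool.Agent.KSec
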