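import Pool.Agent.KSec.Tree

/-!
The transfinite recursion and the core theorem.
-/

open scoped Pointwise Cardinal

namespace Pool.Agent.KSec

theorem exists_rec {Data : Type} [Inhabited Data]
    (P : (Ordinal.{0} → Data) → Ordinal.{0} → Data → Prop)
    (hloc : ∀ D D' α d, (∀ β < α, D β = D' β) → P D α d → P D' α d) (θ : Ordinal.{0})
    (hstep : ∀ D α, α < θ → (∀ β < α, P D β (D β)) → ∃ d, P D α d) :
    ∃ D : Ordinal.{0} → Data, ∀ α < θ, P D α (D α) := by
  classical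
  let Fn : ∀ α : Ordinal.{0}, (∀ β, β < α → Data) → Data := fun α prev =>
    if h : ∃ d, P (fun β => if hb : β < α then prev β hb else default) α d then Classical.choose h
    else default
  let D : Ordinal.{0} → Data := WellFoundedLT.fix Fn
  have hD : ∀ α, D α = Fn α (fun β _ => D β) := fun α => WellFoundedLT.fix_eq _ α
  refine ⟨D, ?_⟩
  intro α
  induction α using WellFoundedLT.induction with
  | _ α ih =>
    intro hα
    obtain ⟨d, hd⟩ := hstep D α hα (fun β hβ => ih β hβ (hβ.trans hα))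
    have hagree : ∀ β < α, D β = (fun β => if hb : β < α then D β else default) β := by
      intro β hβ
      simp [hβ]
    have hex : ∃ d, P (fun β => if hb : β < α then D β else default) α d :=
      ⟨d, hloc _ _ _ _ hagree hd⟩
    have h1 := Classical.choose_spec hex
    have h2 : D α = Classical.choose hex := by
      rw [hD]
      exact dif_pos hex
    rw [h2]
    exact hloc _ _ _ _ (fun β hβ => (hagree β hβ).symm) h1

theorem Dec_congr {t : Equiv.Perm ℕ} {𝒢 𝒢' : Ordinal.{0} → Set Gen}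
    {𝓡 𝓡' : Ordinal.{0} → Set (Set ℕ)} {α : Ordinal.{0}} (h1 : ∀ β < α, 𝒢 β = 𝒢' β)
    (h2 : ∀ β < α, 𝓡 β = 𝓡' β) (Z : Set ℕ) : Dec t 𝒢 𝓡 α Z ↔ Dec t 𝒢' 𝓡' α Z := by
  unfold Dec
  apply forall_congr'
  intro β
  constructor
  · intro h hβ
    rw [← h2 β hβ, ← HH_congr (t := t) (fun γ hγ => h1 γ (hγ.trans hβ))]
    exact h hβ
  · intro h hβ
    rw [h2 β hβ, HH_congr (t := t) (fun γ hγ => h1 γ (hγ.trans hβ))]
    exact h hβ

theorem Rich_congr {t : Equiv.Perm ℕ} {𝒢 𝒢' : Ordinal.{0} → Set Gen}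
    {𝓡 𝓡' : Ordinal.{0} → Set (Set ℕ)} {α : Ordinal.{0}} (h1 : ∀ β < α, 𝒢 β = 𝒢' β)
    (h2 : ∀ β < α, 𝓡 β = 𝓡' β) (X : Set ℕ) : Rich t 𝒢 𝓡 α X ↔ Rich t 𝒢' 𝓡' α X := by
  unfold Rich
  simp only [Dec_congr (t := t) h1 h2, HH_congr (t := t) h1]

theorem RP_congr {t : Equiv.Perm ℕ} {𝒢 𝒢' : Ordinal.{0} → Set Gen}
    {𝓡 𝓡' : Ordinal.{0} → Set (Set ℕ)} {O : Ordinal.{0} → Set (Set ℕ)} {α : Ordinal.{0}}
    (h1 : ∀ β < α, 𝒢 β = 𝒢' β)
    (h2 : ∀ β < α, 𝓡 β = 𝓡' β) {R : Set (Set ℕ)} (h : RP t 𝒢 𝓡 O α R) : RP t 𝒢' 𝓡' O α R := by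
  refine ⟨h.r0, ?_, ?_, ?_⟩
  · rw [← HH_congr (t := t) h1]
    exact h.r1
  · rw [← HH_congr (t := t) h1]
    exact h.r2
  · intro Y hY β hβ
    rw [← h2 β hβ, ← HH_congr (t := t) (fun γ hγ => h1 γ (hγ.trans hβ))]
    exact h.r3 Y hY β hβ

theorem exists_data {θ : Ordinal.{0}} (hθ : IsTheta θ) {t : Equiv.Perm ℕ}
    {O : Ordinal.{0} → Set (Set ℕ)} (hO : ∀ γ < θ, DO (O γ)) {k : ℕ} (hk : 1 ≤ k)
    {τ : ℕ → Fin (k + 1)} (ht : Cof (Subgroup.zpowers t)) (A : ℕ → Fin k) :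
    ∃ (𝒢 : Ordinal.{0} → Set Gen) (𝓡 : Ordinal.{0} → Set (Set ℕ)), ∀ α < θ,
      GP τ (HH t 𝒢 α) (𝒢 α) ∧ RP t 𝒢 𝓡 O α (𝓡 α) ∧
      ∀ B : ℕ → Fin k, (∀ i, Rich t 𝒢 𝓡 α (B ⁻¹' {i})) → (∀ i, Rich t 𝒢 𝓡 α (A ⁻¹' {i})) →
        ∃ x ∈ 𝒢 α, ∀ n, B (x.g n) = A n := by
  have hrec := exists_rec (Data := Set Gen × Set (Set ℕ)) (fun D α d =>
      GP τ (HH t (fun β => (D β).1) α) d.1 ∧
      RP t (fun β => (D β).1) (fun β => (D β).2) O α d.2 ∧
      ∀ B : ℕ → Fin k, (∀ i, Rich t (fun β => (D β).1) (fun β => (D β).2) α (B ⁻¹' {i})) →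
        (∀ i, Rich t (fun β => (D β).1) (fun β => (D β).2) α (A ⁻¹' {i})) →
        ∃ x ∈ d.1, ∀ n, B (x.g n) = A n)
    (by
      rintro D D' α d hag ⟨h1, h2, h3⟩
      have e1 : ∀ β < α, (fun β => (D β).1) β = (fun β => (D' β).1) β := by
        intro β hβ
        show (D β).1 = (D' β).1
        rw [hag β hβ]
      have e2 : ∀ β < α, (fun β => (D β).2) β = (fun β => (D' β).2) β := by
        intro β hβ
        show (D β).2 = (D' β).2
        rw [hag β hβ]
      refine ⟨?_, RP_congr e1 e2 h2, ?_⟩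
      · rw [← HH_congr (t := t) e1]
        exact h1
      · intro B hB hA
        exact h3 B (fun i => (Rich_congr e1 e2 _).mpr (hB i))
          (fun i => (Rich_congr e1 e2 _).mpr (hA i)))
    θ
    (by
      intro D α hα hlow
      obtain ⟨R, hR⟩ := exists_R hθ (t := t) (𝒢 := fun β => (D β).1) (𝓡 := fun β => (D β).2)
        (O := O) (ι' := Fin (k + 1)) (by simp; omega) (τ := τ) hα (hO α hα) ht
        (fun γ hγ => (hlow γ hγ).1) (fun γ hγ => (hlow γ hγ).2.1)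
      obtain ⟨𝒢', h1, h2⟩ := exists_gens hθ (t := t) (𝒢 := fun β => (D β).1)
        (𝓡 := fun β => (D β).2) (τ := τ) hα ht (fun γ hγ => (hlow γ hγ).1) A
      exact ⟨(𝒢', R), h1, hR, h2⟩)
  obtain ⟨D, hD⟩ := hrec
  exact ⟨fun β => (D β).1, fun β => (D β).2, hD⟩

/-- The core theorem on the natural numbers, in terms of colourings, for a given permutation `t`
preserving the classes of `s`. -/
theorem core {t : Equiv.Perm ℕ} (ht1 : t ≠ 1) (ht : Cof (Subgroup.zpowers t)) {k : ℕ}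
    (hk : 1 ≤ k) {s τ : ℕ → Fin (k + 1)} (hs : ∀ n, s (t n) = s n)
    (hsi : ∀ j, (s ⁻¹' {j}).Infinite)
    (hne : ¬ ∀ j', ∃ j, s ⁻¹' {j} = τ ⁻¹' {j'}) :
    ∃ G : Subgroup (Equiv.Perm ℕ),
      (∀ A B : ℕ → Fin k, (∀ i, (A ⁻¹' {i}).Infinite) → (∀ i, (B ⁻¹' {i}).Infinite) →
        ∃ g ∈ G, ∀ n, B (g n) = A n) ∧
      ∀ g ∈ G, ¬ ∀ j', ∃ j, g • (s ⁻¹' {j}) = τ ⁻¹' {j'} := by
  classical
  obtain ⟨θ, hθ⟩ := exists_theta
  obtain ⟨O, hO, hO', hO''⟩ := hθ.exists_empty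
  -- a reference colouring
  let A₀ : ℕ → Fin k := fun n => ⟨n % k, Nat.mod_lt _ hk⟩
  have hA₀ : ∀ i, (A₀ ⁻¹' {i}).Infinite := by
    intro i
    refine Set.infinite_of_injective_forall_mem (f := fun n : ℕ => n * k + i) ?_ ?_
    · intro a b hab
      have : a * k = b * k := by
        have h : a * k + (i : ℕ) = b * k + i := hab
        omega
      exact Nat.eq_of_mul_eq_mul_right hk this
    · intro n
      show A₀ (n * k + i) = i
      apply Fin.ext
      show (n * k + i) % k = i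
      rw [Nat.add_comm, Nat.add_mul_mod_self_right, Nat.mod_eq_of_lt i.2]
  obtain ⟨𝒢, 𝓡, hD⟩ := exists_data hθ hO hk (τ := τ) ht A₀
  have hR := fun γ hγ => (hD γ hγ).2.1
  refine ⟨HH t 𝒢 θ, ?_, ?_⟩
  · -- transitivity
    have key : ∀ B : ℕ → Fin k, (∀ i, (B ⁻¹' {i}).Infinite) →
        ∃ g ∈ HH t 𝒢 θ, ∀ n, B (g n) = A₀ n := by
      intro B hB
      obtain ⟨l, hl, hrich⟩ := exists_rich hθ hO hO' hO'' hR (I := Fin k × Bool)
        (fun p => if p.2 then B ⁻¹' {p.1} else A₀ ⁻¹' {p.1}) (by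
          rintro ⟨i, b⟩
          cases b with
          | true => exact hB i
          | false => exact hA₀ i)
      obtain ⟨x, hx, hx'⟩ := (hD l hl).2.2 B (fun i => hrich (i, true)) (fun i => hrich (i, false))
      exact ⟨x.g, Subgroup.subset_closure (Or.inr ⟨l, hl, x, hx, rfl⟩), hx'⟩
    intro A B hA hB
    obtain ⟨a, ha, ha'⟩ := key A hA
    obtain ⟨b, hb, hb'⟩ := key B hB
    refine ⟨b * a⁻¹, Subgroup.mul_mem _ hb (Subgroup.inv_mem _ ha), ?_⟩
    intro n
    show B (b (a⁻¹ n)) = A n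
    rw [hb', ← ha']
    simp
  · -- non-transitivity
    have hts : ∀ j, t • (s ⁻¹' {j}) = s ⁻¹' {j} := by
      intro j
      ext n
      rw [Set.mem_smul_set_iff_inv_smul_mem]
      show s (t⁻¹ n) = j ↔ s n = j
      rw [← hs (t⁻¹ n)]
      simp
    have hzs : ∀ g ∈ Subgroup.zpowers t, ∀ j, g • (s ⁻¹' {j}) = s ⁻¹' {j} := by
      intro g hg j
      have h1 : Subgroup.zpowers t ≤ MulAction.stabilizer (Equiv.Perm ℕ) (s ⁻¹' {j}) := by
        rw [Subgroup.zpowers_le]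
        exact hts j
      exact h1 hg
    intro g hg hall
    by_cases hz : g ∈ Subgroup.zpowers t
    · apply hne
      intro j'
      obtain ⟨j, hj⟩ := hall j'
      rw [hzs g hz j] at hj
      exact ⟨j, hj⟩
    · rcases HH_cases hg with h | hex
      · exact hz h
      · obtain ⟨γ, ⟨hγ, hγ'⟩, hmin⟩ := WellFounded.has_min (wellFounded_lt (α := Ordinal.{0}))
          {γ | γ < θ ∧ g ∈ HH t 𝒢 (γ + 1)} hex
        have hnot : g ∉ HH t 𝒢 γ := by
          intro h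
          rcases HH_cases h with h' | ⟨δ, hδ, hδ'⟩
          · exact hz h'
          · exact hmin δ ⟨hδ.trans hγ, hδ'⟩ hδ
        have P := (hD γ hγ).1
        have hexW := HH_word hγ'
        have hW := Nat.find_spec hexW
        have hWmin : ∀ m < Nat.find hexW, ¬ W (HH t 𝒢 γ) (𝒢 γ) m g :=
          fun m hm => Nat.find_min hexW hm
        rcases hn : Nat.find hexW with _ | n
        · rw [hn] at hW
          cases hW with
          | zero hh => exact hnot hh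
        · rw [hn] at hW hWmin
          obtain ⟨z, x, δ, k₀, hz', hx, hk₀, rfl⟩ := hW.peel
          obtain ⟨y, ε, kr, hRW⟩ := hz'.toRW hx δ hk₀
          have hasc := hRW.ascend P hWmin
          obtain ⟨hy, hkr, -⟩ := hRW.last
          obtain ⟨j', hj'⟩ := P.p3 y hy kr hkr ε
          obtain ⟨j, hj⟩ := hall j'
          set g := z * x.act δ * k₀ with hgdef
          have hAL : AL (s ⁻¹' {j}) (k₀⁻¹ • x.K (!δ)) := by
            refine (hasc.union (hj'.preimage (f := fun v => g v) g.injective.injOn)).subset ?_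
            rintro v ⟨hv1, hv2⟩
            rw [Set.mem_smul_set_iff_inv_smul_mem, inv_inv] at hv2
            by_cases h1 : g v ∈ kr • y.K ε ∧ k₀ v < g v
            · right
              refine ⟨h1.1, ?_⟩
              rw [← hj]
              exact ⟨v, hv1, rfl⟩
            · left
              exact ⟨hv2, h1⟩
          have hAL2 : AL (s ⁻¹' {j}) (t • k₀⁻¹ • x.K (!δ)) := by
            have := hAL.smul t
            rwa [hts j] at this
          have hinf := hAL.inter_infinite2 hAL2 (hsi j)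
          have hinf2 : ((k₀ * t * k₀⁻¹) • x.K (!δ) ∩ x.K (!δ)).Infinite := by
            have := (infinite_smul k₀).mpr hinf
            rw [Set.smul_set_inter, smul_inv_smul, smul_smul, smul_smul, Set.inter_comm] at this
            simpa [mul_assoc] using this
          have hmem : k₀ * t * k₀⁻¹ ∈ HH t 𝒢 γ :=
            Subgroup.mul_mem _ (Subgroup.mul_mem _ hk₀ (t_mem_HH _)) (Subgroup.inv_mem _ hk₀)
          obtain ⟨-, -, h1⟩ := P.p2 x hx x hx _ hmem (!δ) (!δ) hinf2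
          apply ht1
          have : t = k₀⁻¹ * (k₀ * t * k₀⁻¹) * k₀ := by group
          rw [this, h1]
          simp

end Pool.Agent.KSec
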