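import Pool.Agent.KSec.Det

/-!
Selection with countable conflicts, and construction of one generator.
-/

open scoped Pointwise Cardinal

namespace Pool.Agent.KSec

/-- Two sets conflict if some translate of the first meets the second in an infinite set. -/
def Conf (H : Subgroup (Equiv.Perm ℕ)) (Z Z' : Set ℕ) : Prop := ∃ h ∈ H, (h • Z ∩ Z').Infinite

theorem Conf.symm {H : Subgroup (Equiv.Perm ℕ)} {Z Z' : Set ℕ} (h : Conf H Z Z') :
    Conf H Z' Z := by
  obtain ⟨g, hg, hi⟩ := h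
  refine ⟨g⁻¹, H.inv_mem hg, ?_⟩
  rw [inter_smul_infinite] at hi ⊢
  rw [inv_inv]
  have := (infinite_smul g).mpr hi
  rw [Set.smul_set_inter, smul_inv_smul] at this
  rwa [Set.inter_comm]

theorem Conf.mono {H : Subgroup (Equiv.Perm ℕ)} {Z Z' Y Y' : Set ℕ} (h : Conf H Y Y')
    (h1 : AL Y Z) (h2 : AL Y' Z') : Conf H Z Z' := by
  obtain ⟨g, hg, hi⟩ := h
  refine ⟨g, hg, ?_⟩
  exact AL.inter_infinite2 (AL.mono_left Set.inter_subset_left (h1.smul g))
    (AL.mono_left Set.inter_subset_right h2) hi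

theorem exists_not_mem_union {I : Type} [LinearOrder I] [WellFoundedLT I]
    (hI : #I ≤ 𝔠) (ho : Cardinal.ord #I = Ordinal.type (α := I) (· < ·)) (i : I)
    (S : Set.Iio i → Set (ℕ → Bool)) (hS : ∀ j, (S j).Countable) : ∃ f, ∀ j, f ∉ S j := by
  have h1 : #(Set.Iio i) < 𝔠 := (Cardinal.mk_Iio_lt i ho).trans_le hI
  have h2 : #(⋃ j, S j) < 𝔠 := by
    refine (Cardinal.mk_iUnion_le S).trans_lt ?_
    refine Cardinal.mul_lt_of_lt Cardinal.aleph0_le_continuum h1 ?_
    refine (ciSup_le' ?_).trans_lt Cardinal.aleph0_lt_continuum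
    intro j
    exact (hS j).le_aleph0
  by_contra hc
  push Not at hc
  have h3 : (⋃ j, S j) = Set.univ := by
    rw [Set.eq_univ_iff_forall]
    intro f
    obtain ⟨j, hj⟩ := hc f
    exact Set.mem_iUnion.mpr ⟨j, hj⟩
  rw [h3, Cardinal.mk_univ] at h2
  have h4 : #(ℕ → Bool) = 𝔠 := by simp
  rw [h4] at h2
  exact lt_irrefl _ h2

/-- Selection with countable conflicts. -/
theorem selection {I : Type} (hI : #I ≤ 𝔠) (H : Subgroup (Equiv.Perm ℕ))
    (Z : I → (ℕ → Bool) → Set ℕ)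
    (hcount : ∀ i j g, {f | Conf H (Z i f) (Z j g)}.Countable) :
    ∃ f : I → (ℕ → Bool), ∀ i j, i ≠ j → ¬ Conf H (Z i (f i)) (Z j (f j)) := by
  classical
  obtain ⟨_, _, ho⟩ := Cardinal.exists_ord_eq_type_lt I
  have hex : ∀ (i : I) (p : ∀ j, j < i → (ℕ → Bool)),
      ∃ f, ∀ j (hj : j < i), ¬ Conf H (Z i f) (Z j (p j hj)) := by
    intro i p
    obtain ⟨f, hf⟩ := exists_not_mem_union hI ho i
      (fun j => {f | Conf H (Z i f) (Z j.1 (p j.1 j.2))}) (fun j => hcount _ _ _)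
    exact ⟨f, fun j hj hc => hf ⟨j, hj⟩ hc⟩
  choose F hF using hex
  let f : I → (ℕ → Bool) := WellFoundedLT.fix (fun i p => F i p)
  have hf : ∀ i, f i = F i (fun j _ => f j) := fun i => WellFoundedLT.fix_eq _ i
  have hlt : ∀ i j, j < i → ¬ Conf H (Z i (f i)) (Z j (f j)) := by
    intro i j hj
    rw [hf i]
    exact hF i (fun j _ => f j) j hj
  refine ⟨f, fun i j hij => ?_⟩
  rcases lt_or_gt_of_ne hij with h | h
  · intro hc
    exact hlt j i h hc.symm
  · exact hlt i j h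

/-- Construction of one generator from its pieces, by the Cantor-Bernstein argument. -/
theorem exists_gen {κ : Type} (A B : ℕ → κ) (C N : κ → Set ℕ) (hC : ∀ i, C i ⊆ B ⁻¹' {i})
    (hN : ∀ i, N i ⊆ A ⁻¹' {i}) (hCi : ∀ i, (C i).Infinite) (hNi : ∀ i, (N i).Infinite) :
    ∃ x : Gen, (∀ n, B (x.g n) = A n) ∧ (∀ δ v, v ∉ x.K (!δ) → x.act δ v ∈ x.K δ) ∧
      (∀ u ∈ x.K true, ∃ i, u ∈ C i ∧ ∃ y ∈ C i, y < u ∧ x.act false u ≤ y) ∧
      (∀ u ∈ x.K false, ∃ i, u ∈ N i ∧ ∃ y ∈ N i, y < u ∧ x.act true u ≤ y) := by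
  have h1 := fun i => exists_enum (hCi i)
  have h2 := fun i => exists_enum (hNi i)
  choose c hc1 hc2 using h1
  choose d hd1 hd2 using h2
  have hcm : ∀ i n, c i n ∈ C i := fun i n => by rw [← hc2 i]; exact ⟨n, rfl⟩
  have hdm : ∀ i n, d i n ∈ N i := fun i n => by rw [← hd2 i]; exact ⟨n, rfl⟩
  have hfi : Function.Injective (fun a => c (A a) (a + 1)) := by
    intro a a' h
    have e1 : B (c (A a) (a + 1)) = A a := hC _ (hcm _ _)
    have e2 : B (c (A a') (a' + 1)) = A a' := hC _ (hcm _ _)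
    have h' : c (A a) (a + 1) = c (A a') (a' + 1) := h
    have e3 : A a = A a' := by rw [← e1, ← e2, h']
    rw [e3] at h'
    have := (hc1 (A a')).injective h'
    omega
  have hgi : Function.Injective (fun b => d (B b) (b + 1)) := by
    intro a a' h
    have e1 : A (d (B a) (a + 1)) = B a := hN _ (hdm _ _)
    have e2 : A (d (B a') (a' + 1)) = B a' := hN _ (hdm _ _)
    have h' : d (B a) (a + 1) = d (B a') (a' + 1) := h
    have e3 : B a = B a' := by rw [← e1, ← e2, h']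
    rw [e3] at h'
    have := (hd1 (B a')).injective h'
    omega
  let F1 : ℕ → ℕ → Prop := fun a b => b ∈ C (A a) ∧ ∃ y ∈ C (A a), y < b ∧ a ≤ y
  let F2 : ℕ → ℕ → Prop := fun a b => a ∈ N (A a) ∧ B b = A a ∧ ∃ y ∈ N (A a), y < a ∧ b ≤ y
  obtain ⟨h, hb, hR⟩ := Function.Embedding.schroeder_bernstein_of_rel hfi hgi
    (fun a b => F1 a b ∨ F2 a b)
    (by
      intro a
      left
      exact ⟨hcm _ _, c (A a) a, hcm _ _, hc1 _ (Nat.lt_succ_self a), (hc1 _).le_apply⟩)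
    (by
      intro b
      right
      have e : A (d (B b) (b + 1)) = B b := hN _ (hdm _ _)
      refine ⟨?_, ?_, ?_⟩
      · show d (B b) (b + 1) ∈ N (A (d (B b) (b + 1)))
        rw [e]
        exact hdm _ _
      · show B b = A (d (B b) (b + 1))
        rw [e]
      · show ∃ y ∈ N (A (d (B b) (b + 1))), y < d (B b) (b + 1) ∧ b ≤ y
        rw [e]
        exact ⟨d (B b) b, hdm _ _, hd1 _ (Nat.lt_succ_self b), (hd1 _).le_apply⟩)
  let e : Equiv.Perm ℕ := Equiv.ofBijective h hb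
  have he : ∀ a, e a = h a := fun a => rfl
  have hei : ∀ b, h (e⁻¹ b) = b := fun b => by
    rw [← he]; simp
  have hei2 : ∀ a, e⁻¹ (h a) = a := fun a => by
    rw [← he]; simp
  refine ⟨⟨e, fun δ => if δ then {b | F1 (e⁻¹ b) b} else {a | ¬ F1 a (h a)}⟩, ?_, ?_, ?_, ?_⟩
  · intro n
    rcases hR n with h3 | h3
    · exact hC _ h3.1
    · exact h3.2.1
  · intro δ v hv
    cases δ with
    | true =>
      have h3 : F1 v (h v) := by
        by_contra hcon
        exact hv (by simpa using hcon)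
      show F1 (e⁻¹ (e v)) (e v)
      rw [he, hei2]
      exact h3
    | false =>
      have h3 : ¬ F1 (e⁻¹ v) v := by
        intro hcon
        exact hv (by simpa using hcon)
      show ¬ F1 (e⁻¹ v) (h (e⁻¹ v))
      rw [hei]
      exact h3
  · intro u hu
    have h3 : F1 (e⁻¹ u) u := hu
    obtain ⟨h4, y, hy, hyu, h5⟩ := h3
    exact ⟨A (e⁻¹ u), h4, y, hy, hyu, h5⟩
  · intro u hu
    have h3 : ¬ F1 u (h u) := hu
    rcases hR u with h4 | ⟨h4, h5, y, hy, hyu, h6⟩
    · exact absurd h4 h3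
    · exact ⟨A u, h4, y, hy, hyu, h6⟩

end Pool.Agent.KSec
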