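import Pool.Agent.KSec.Select

/-!
Existence of one level of the construction.
-/

open scoped Pointwise Cardinal

namespace Pool.Agent.KSec

theorem free_of_Sp {h : Equiv.Perm ℕ} {X : Set ℕ} (h1 : Sp h X) (h2 : Sp h⁻¹ X)
    (hf : {v | h v = v}.Finite) : (h • X ∩ X).Finite := by
  refine (((h1.image (fun v => h v)).union h2).union hf).subset ?_
  rintro y ⟨⟨x, hx, rfl⟩, hy⟩
  have hy' : h x ∈ X := hy
  show h x ∈ _
  rcases lt_trichotomy (h x) x with h3 | h3 | h3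
  · exact Or.inl (Or.inl ⟨x, ⟨hx, h x, hy', h3, le_rfl⟩, rfl⟩)
  · right
    show h (h x) = h x
    rw [h3]
    exact h3
  · left; right
    exact ⟨hy', x, hx, h3, by simp⟩

/-- `Z` is decided at all levels below `α`. -/
def Dec (t : Equiv.Perm ℕ) (𝒢 : Ordinal.{0} → Set Gen) (𝓡 : Ordinal.{0} → Set (Set ℕ))
    (α : Ordinal.{0}) (Z : Set ℕ) : Prop :=
  ∀ β < α, ∃ Y ∈ 𝓡 β, ∃ h ∈ HH t 𝒢 β, AL Z (h • Y)

/-- `X` is rich for level `α`. -/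
def Rich (t : Equiv.Perm ℕ) (𝒢 : Ordinal.{0} → Set Gen) (𝓡 : Ordinal.{0} → Set (Set ℕ))
    (α : Ordinal.{0}) (X : Set ℕ) : Prop :=
  ∃ Z : (ℕ → Bool) → Set ℕ, (∀ f, Z f ⊆ X ∧ (Z f).Infinite ∧ Dec t 𝒢 𝓡 α (Z f)) ∧
    ∀ Z' : Set ℕ, Dec t 𝒢 𝓡 α Z' → {f | Conf (HH t 𝒢 α) (Z f) Z'}.Countable

/-- The properties of the family of representatives at level `α`. -/
structure RP (t : Equiv.Perm ℕ) (𝒢 : Ordinal.{0} → Set Gen) (𝓡 : Ordinal.{0} → Set (Set ℕ))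
    (O : Ordinal.{0} → Set (Set ℕ)) (α : Ordinal.{0}) (R : Set (Set ℕ)) : Prop where
  r0 : ∀ Y ∈ R, Y.Infinite
  r1 : ∀ Y ∈ R, ∀ Y' ∈ R, ∀ h ∈ HH t 𝒢 α, (h • Y ∩ Y').Infinite → Y = Y' ∧ h = 1
  r2 : ∀ X : Set ℕ, X.Infinite → ∃ Y ∈ R, ∃ h ∈ HH t 𝒢 α, (X ∩ h • Y).Infinite
  r3 : ∀ Y ∈ R, ∀ β < α, ∃ Y' ∈ 𝓡 β, ∃ h ∈ HH t 𝒢 β, AL Y (h • Y') ∧ h⁻¹ • Y ∈ O α

theorem exists_R {θ : Ordinal.{0}} (hθ : IsTheta θ) {t : Equiv.Perm ℕ}
    {𝒢 : Ordinal.{0} → Set Gen} {𝓡 : Ordinal.{0} → Set (Set ℕ)} {O : Ordinal.{0} → Set (Set ℕ)}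
    {ι' : Type} [Fintype ι'] (hc : 1 < Fintype.card ι')
    {τ : ℕ → ι'} {α : Ordinal.{0}} (hα : α < θ) (hO : DO (O α))
    (ht : Cof (Subgroup.zpowers t))
    (P : ∀ γ < α, GP τ (HH t 𝒢 γ) (𝒢 γ)) (hR : ∀ γ < α, RP t 𝒢 𝓡 O γ (𝓡 γ)) :
    ∃ R, RP t 𝒢 𝓡 O α R := by
  classical
  set H := HH t 𝒢 α with hH
  have hcof : Cof H := HH_cof ht α P
  -- the free sets
  have hfree : DO {Y | ∀ h ∈ H, h ≠ 1 → (h • Y ∩ Y).Finite} := by
    constructor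
    · intro X hX Y hY hYX h hh h1
      have h2 := hX h hh h1
      have h3 := (hYX.smul h).inter_finite h2
      rw [Set.inter_comm] at h3 ⊢
      exact hYX.inter_finite h3
    · intro X hX
      obtain ⟨X', h1, h2, h3⟩ := exists_det hθ (ι := Unit) (by simpa using hc) hα P (fun _ => X)
        (fun _ => hX)
      refine ⟨X' (), h1 (), h2 (), ?_⟩
      intro h hh hne
      exact free_of_Sp ((h3 h hh).1 ()) ((h3 h⁻¹ (H.inv_mem hh)).1 ()) (hcof h hh hne)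
  have hpos : DO {Y | ∀ β < α, Y ∈ {Y | ∃ Y' ∈ 𝓡 β, ∃ h ∈ HH t 𝒢 β,
      AL Y (h • Y') ∧ h⁻¹ • Y ∈ O α}} := by
    apply hθ.DO_lt hα
    intro β hβ
    constructor
    · rintro X ⟨Y', hY', h, hh, hA, hXO⟩ Y hY hYX
      exact ⟨Y', hY', h, hh, hYX.trans hA, hO.opn _ hXO _ ((infinite_smul _).mpr hY)
        (hYX.smul _)⟩
    · intro X hX
      obtain ⟨Y', hY', h, hh, hi⟩ := (hR β hβ).r2 X hX
      obtain ⟨W, hW1, hW2, hW3⟩ := hO.dns (h⁻¹ • (X ∩ h • Y')) ((infinite_smul _).mpr hi)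
      have h1 : h • W ⊆ X ∩ h • Y' := by
        have := Set.smul_set_mono (a := h) hW1
        rwa [smul_inv_smul] at this
      refine ⟨h • W, h1.trans Set.inter_subset_left, (infinite_smul _).mpr hW2, Y', hY', h, hh,
        AL.of_subset (h1.trans Set.inter_subset_right), ?_⟩
      rw [inv_smul_smul]
      exact hW3
  have hQ := hfree.inter hpos
  set Q := {Y | ∀ h ∈ H, h ≠ 1 → (h • Y ∩ Y).Finite} ∩ {Y | ∀ β < α, Y ∈ {Y | ∃ Y' ∈ 𝓡 β,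
    ∃ h ∈ HH t 𝒢 β, AL Y (h • Y') ∧ h⁻¹ • Y ∈ O α}} with hQdef
  -- Zorn
  obtain ⟨R, hRmax⟩ := zorn_subset
    {R : Set (Set ℕ) | (∀ Y ∈ R, Y.Infinite ∧ Y ∈ Q) ∧ ∀ Y ∈ R, ∀ Y' ∈ R, ∀ h ∈ H,
      (h • Y ∩ Y').Infinite → Y = Y'} (by
    intro c hcS hchain
    refine ⟨⋃₀ c, ⟨?_, ?_⟩, fun s hs => Set.subset_sUnion_of_mem hs⟩
    · rintro Y ⟨s, hs, hY⟩
      exact (hcS hs).1 Y hY
    · rintro Y ⟨s, hs, hY⟩ Y' ⟨s', hs', hY'⟩ h hh hi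
      rcases hchain.total hs hs' with h1 | h1
      · exact (hcS hs').2 Y (h1 hY) Y' hY' h hh hi
      · exact (hcS hs).2 Y hY Y' (h1 hY') h hh hi)
  have hR1 := hRmax.prop
  refine ⟨R, ⟨fun Y hY => (hR1.1 Y hY).1, ?_, ?_, ?_⟩⟩
  · intro Y hY Y' hY' h hh hi
    have h1 := hR1.2 Y hY Y' hY' h hh hi
    refine ⟨h1, ?_⟩
    subst h1
    by_contra hne
    exact hi ((hR1.1 Y hY).2.1 h hh hne)
  · intro X hX
    obtain ⟨X', hX'1, hX'2, hX'3⟩ := hQ.dns X hX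
    by_contra hcon
    push Not at hcon
    have hcon' : ∀ Y ∈ R, ∀ h ∈ H, (X' ∩ h • Y).Finite := by
      intro Y hY h hh
      have := hcon Y hY h hh
      exact this.subset (Set.inter_subset_inter_left _ hX'1)
    have hins : insert X' R ∈ {R : Set (Set ℕ) | (∀ Y ∈ R, Y.Infinite ∧ Y ∈ Q) ∧ ∀ Y ∈ R, ∀ Y' ∈ R,
        ∀ h ∈ H, (h • Y ∩ Y').Infinite → Y = Y'} := by
      refine ⟨?_, ?_⟩
      · rintro Y (rfl | hY)
        · exact ⟨hX'2, hX'3⟩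
        · exact hR1.1 Y hY
      · rintro Y (rfl | hY) Y' (rfl | hY') h hh hi
        · rfl
        · exfalso
          rw [inter_smul_infinite] at hi
          exact hi (hcon' Y' hY' h⁻¹ (H.inv_mem hh))
        · exfalso
          rw [Set.inter_comm] at hi
          exact hi (hcon' Y hY h hh)
        · exact hR1.2 Y hY Y' hY' h hh hi
    have hmem : X' ∈ R := by
      have := hRmax.eq_of_subset hins (Set.subset_insert _ _)
      rw [this]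
      exact Set.mem_insert _ _
    have := hcon' X' hmem 1 H.one_mem
    rw [one_smul, Set.inter_self] at this
    exact hX'2 this
  · intro Y hY β hβ
    exact (hR1.1 Y hY).2.2 β hβ

theorem inter_infinite_of_cover {ι κ : Type} [Finite ι] [Finite κ] {K K' : Set ℕ}
    {P : ι → Set ℕ} {P' : κ → Set ℕ} (h1 : K ⊆ ⋃ i, P i) (h2 : K' ⊆ ⋃ i, P' i)
    (g : Equiv.Perm ℕ) (hi : (g • K ∩ K').Infinite) : ∃ i j, (g • P i ∩ P' j).Infinite := by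
  by_contra hcon
  push Not at hcon
  apply hi
  refine (Set.finite_iUnion (fun i => Set.finite_iUnion (fun j => hcon i j))).subset ?_
  rintro _ ⟨⟨x, hx, rfl⟩, hy⟩
  obtain ⟨i, hi'⟩ := Set.mem_iUnion.mp (h1 hx)
  obtain ⟨j, hj⟩ := Set.mem_iUnion.mp (h2 hy)
  simp only [Set.mem_iUnion]
  exact ⟨i, j, ⟨x, hi', rfl⟩, hj⟩

theorem card_colorings (k : ℕ) : #(ℕ → Fin k) ≤ 𝔠 := by
  have h1 : #(ℕ → Fin k) ≤ #(ℕ → ℕ) :=
    Cardinal.mk_le_of_injective (f := fun B n => (B n : ℕ)) (by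
      intro B B' h
      funext n
      exact Fin.ext (congrFun h n))
  have h2 : #(ℕ → ℕ) = 𝔠 := by simp
  rwa [h2] at h1

/-- The generators of level `α`. -/
theorem exists_gens {θ : Ordinal.{0}} (hθ : IsTheta θ) {t : Equiv.Perm ℕ}
    {𝒢 : Ordinal.{0} → Set Gen} {𝓡 : Ordinal.{0} → Set (Set ℕ)} {k : ℕ}
    {τ : ℕ → Fin (k + 1)} {α : Ordinal.{0}} (hα : α < θ)
    (ht : Cof (Subgroup.zpowers t))
    (P : ∀ γ < α, GP τ (HH t 𝒢 γ) (𝒢 γ)) (A : ℕ → Fin k) :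
    ∃ 𝒢' : Set Gen, GP τ (HH t 𝒢 α) 𝒢' ∧
      ∀ B : ℕ → Fin k, (∀ i, Rich t 𝒢 𝓡 α (B ⁻¹' {i})) → (∀ i, Rich t 𝒢 𝓡 α (A ⁻¹' {i})) →
        ∃ x ∈ 𝒢', ∀ n, B (x.g n) = A n := by
  classical
  set H := HH t 𝒢 α with hH
  have hcof : Cof H := HH_cof ht α P
  let S := {B : ℕ → Fin k // (∀ i, Rich t 𝒢 𝓡 α (B ⁻¹' {i})) ∧ (∀ i, Rich t 𝒢 𝓡 α (A ⁻¹' {i}))}
  let I := S × (Fin k × Bool)
  let X : I → Set ℕ := fun p => if p.2.2 then p.1.1 ⁻¹' {p.2.1} else A ⁻¹' {p.2.1}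
  have hX : ∀ p, Rich t 𝒢 𝓡 α (X p) := by
    rintro ⟨⟨B, hB, hA⟩, i, b⟩
    cases b with
    | true => exact hB i
    | false => exact hA i
  choose Z hZ1 hZ2 using hX
  have hI : #I ≤ 𝔠 := by
    have h1 : #S ≤ 𝔠 := (Cardinal.mk_subtype_le _).trans (card_colorings k)
    have h2 : #(Fin k × Bool) ≤ 𝔠 := (Cardinal.mk_le_aleph0).trans Cardinal.aleph0_le_continuum
    have h3 : #I = #S * #(Fin k × Bool) := Cardinal.mul_def _ _ |>.symm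
    rw [h3]
    exact Cardinal.mul_le_of_le Cardinal.aleph0_le_continuum h1 h2
  obtain ⟨f, hf⟩ := selection hI H Z (fun i j g => hZ2 i (Z j g) (hZ1 j g).2.2)
  have hC := fun (s : S) => exists_det hθ (ι := Fin k) (by simp) hα P
    (fun i => Z (s, (i, true)) (f (s, (i, true)))) (fun i => (hZ1 _ _).2.1)
  have hN := fun (s : S) => exists_det hθ (ι := Fin k) (by simp) hα P
    (fun i => Z (s, (i, false)) (f (s, (i, false)))) (fun i => (hZ1 _ _).2.1)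
  choose C hC1 hC2 hC3 using hC
  choose N hN1 hN2 hN3 using hN
  have hG := fun (s : S) => exists_gen A s.1 (C s) (N s)
    (fun i => (hC1 s i).trans (by simpa [X] using (hZ1 (s, (i, true)) (f (s, (i, true)))).1))
    (fun i => (hN1 s i).trans (by simpa [X] using (hZ1 (s, (i, false)) (f (s, (i, false)))).1))
    (hC2 s) (hN2 s)
  choose x hx1 hx2 hx3 hx4 using hG
  -- pieces
  let Q : S → Bool → Fin k → Set ℕ := fun s δ i => if δ then C s i else N s i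
  have hQZ : ∀ s δ i, Q s δ i ⊆ Z (s, (i, δ)) (f (s, (i, δ))) := by
    intro s δ i
    cases δ with
    | true => exact hC1 s i
    | false => exact hN1 s i
  have hQPr : ∀ s δ, ∀ h ∈ H, Pr τ (Q s δ) h := by
    intro s δ h hh
    cases δ with
    | true => exact hC3 s h hh
    | false => exact hN3 s h hh
  have hup : ∀ s δ, ∀ u ∈ (x s).K δ, ∃ i, u ∈ Q s δ i ∧ ∃ y ∈ Q s δ i, y < u ∧
      (x s).act (!δ) u ≤ y := by
    intro s δ u hu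
    cases δ with
    | true => exact hx3 s u hu
    | false => exact hx4 s u hu
  have hcov : ∀ s δ, (x s).K δ ⊆ ⋃ i, Q s δ i := by
    intro s δ u hu
    obtain ⟨i, hi, -⟩ := hup s δ u hu
    exact Set.mem_iUnion.mpr ⟨i, hi⟩
  refine ⟨Set.range x, ⟨?_, ?_, ?_, ?_⟩, ?_⟩
  · rintro _ ⟨s, rfl⟩ δ v hv
    exact hx2 s δ v hv
  · rintro _ ⟨s, rfl⟩ h hh δ
    refine (Set.finite_iUnion (fun i => (hQPr s δ h hh).1 i)).subset ?_
    rintro u ⟨hu1, hu2⟩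
    obtain ⟨i, hi, y, hy, hyu, hle⟩ := hup s δ u hu1
    exact Set.mem_iUnion.mpr ⟨i, hi, y, hy, hyu, hu2.trans hle⟩
  · rintro _ ⟨s, rfl⟩ _ ⟨s', rfl⟩ h hh δ δ' hinf
    obtain ⟨i, j, hij⟩ := inter_infinite_of_cover (hcov s δ) (hcov s' δ') h hinf
    have hconf : Conf H (Z (s, (i, δ)) (f (s, (i, δ)))) (Z (s', (j, δ')) (f (s', (j, δ')))) := by
      refine ⟨h, hh, hij.mono ?_⟩
      exact Set.inter_subset_inter (Set.smul_set_mono (hQZ s δ i)) (hQZ s' δ' j)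
    have heq : ((s, (i, δ)) : I) = (s', (j, δ')) := by
      by_contra hne
      exact hf _ _ hne hconf
    have h1 : s = s' := congrArg Prod.fst heq
    have h2 : (i, δ) = (j, δ') := congrArg Prod.snd heq
    have h3 : i = j := congrArg Prod.fst h2
    have h4 : δ = δ' := congrArg Prod.snd h2
    subst h1 h3 h4
    refine ⟨rfl, rfl, ?_⟩
    by_contra hne
    exact hij (free_of_Sp ((hQPr s δ h hh).1 i) ((hQPr s δ h⁻¹ (H.inv_mem hh)).1 i)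
      (hcof h hh hne))
  · rintro _ ⟨s, rfl⟩ h hh δ
    obtain ⟨j, hj⟩ := (hQPr s δ h hh).2
    refine ⟨j, (Set.finite_iUnion (fun i => hj i)).subset ?_⟩
    rintro _ ⟨⟨u, hu, rfl⟩, hτ⟩
    obtain ⟨i, hi⟩ := Set.mem_iUnion.mp (hcov s δ hu)
    exact Set.mem_iUnion.mpr ⟨i, ⟨u, hi, rfl⟩, hτ⟩
  · intro B hB hA
    exact ⟨x ⟨B, hB, hA⟩, ⟨_, rfl⟩, hx1 ⟨B, hB, hA⟩⟩

end Pool.Agent.KSec
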