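import Pool.Agent.KSec.Step

/-!
Undecided levels and the tree lemma.
-/

open scoped Pointwise Cardinal

namespace Pool.Agent.KSec

theorem IsTheta.iSup_lt {θ : Ordinal.{0}} (hθ : IsTheta θ) {γ : ℕ → Ordinal.{0}}
    (hγ : ∀ n, γ n < θ) : (⨆ n, γ n) < θ := by
  obtain ⟨δ, h1, h2⟩ := hθ.bound hγ
  exact (ciSup_le' (fun n => (h2 n).le)).trans_lt h1

theorem IsTheta.bound_countable {θ : Ordinal.{0}} (hθ : IsTheta θ) {F : Set Ordinal.{0}}
    (hF : F.Countable) (hF' : ∀ x ∈ F, x < θ) : ∃ δ < θ, ∀ x ∈ F, x < δ := by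
  rcases F.eq_empty_or_nonempty with h | h
  · exact ⟨0, hθ.pos, by simp [h]⟩
  · obtain ⟨f, hf⟩ := hF.exists_eq_range h
    obtain ⟨δ, h1, h2⟩ := hθ.bound (γ := f) (fun n => hF' _ (by rw [hf]; exact ⟨n, rfl⟩))
    refine ⟨δ, h1, ?_⟩
    rw [hf]
    rintro _ ⟨n, rfl⟩
    exact h2 n

section

variable {θ : Ordinal.{0}} (hθ : IsTheta θ) {t : Equiv.Perm ℕ}
    {𝒢 : Ordinal.{0} → Set Gen} {𝓡 : Ordinal.{0} → Set (Set ℕ)} {O : Ordinal.{0} → Set (Set ℕ)}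
    (hO : ∀ γ < θ, DO (O γ)) (hO' : ∀ γ γ', γ ≤ γ' → O γ' ⊆ O γ)
    (hO'' : ∀ Y : Set ℕ, Y.Infinite → ∃ γ < θ, Y ∉ O γ)
    (hR : ∀ γ < θ, RP t 𝒢 𝓡 O γ (𝓡 γ))

theorem mem_HH_of_iSup {a : ℕ → Ordinal.{0}} {h : Equiv.Perm ℕ} (hh : h ∈ HH t 𝒢 (⨆ n, a n)) :
    ∃ n, h ∈ HH t 𝒢 (a n) := by
  rcases HH_cases hh with hz | ⟨γ, hγ, hh'⟩
  · exact ⟨0, zpowers_le_HH _ hz⟩
  · obtain ⟨n, hn⟩ := exists_lt_of_lt_ciSup' hγ
    exact ⟨n, HH_mono (Order.add_one_le_of_lt hn) hh'⟩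

include hθ hO hO' hO'' hR

/-- No infinite set is decided at all large levels. -/
theorem undecided {X : Set ℕ} (hX : X.Infinite) {γ₀ : Ordinal.{0}} (hγ₀ : γ₀ < θ) :
    ∃ α, γ₀ < α ∧ α < θ ∧ ¬ ∃ Y ∈ 𝓡 α, ∃ h ∈ HH t 𝒢 α, AL X (h • Y) := by
  by_contra hcon
  have hdec : ∀ α, ∃ (Y : Set ℕ) (h : Equiv.Perm ℕ), γ₀ < α → α < θ →
      Y ∈ 𝓡 α ∧ h ∈ HH t 𝒢 α ∧ AL X (h • Y) := by
    intro α
    by_cases h1 : γ₀ < α ∧ α < θ
    · by_cases h2 : ∃ Y ∈ 𝓡 α, ∃ h ∈ HH t 𝒢 α, AL X (h • Y)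
      · obtain ⟨Y, hY, h, hh, hA⟩ := h2
        exact ⟨Y, h, fun _ _ => ⟨hY, hh, hA⟩⟩
      · exact absurd ⟨α, h1.1, h1.2, h2⟩ hcon
    · exact ⟨∅, 1, fun h2 h3 => absurd ⟨h2, h3⟩ h1⟩
  choose Y h hY using hdec
  have hpress : ∃ β < θ, ∀ δ < θ, ∃ α, δ < α ∧ α < θ ∧ h α ∈ HH t 𝒢 β := by
    by_contra hc
    push Not at hc
    have hc' : ∀ β, ∃ δ, β < θ → (δ < θ ∧ ∀ α, δ < α → α < θ → h α ∉ HH t 𝒢 β) := by
      intro β
      by_cases hβ : β < θ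
      · obtain ⟨δ, h1, h2⟩ := hc β hβ
        exact ⟨δ, fun _ => ⟨h1, h2⟩⟩
      · exact ⟨0, fun h1 => absurd h1 hβ⟩
    choose d hd using hc'
    let a : ℕ → Ordinal.{0} := fun n => Nat.rec (γ₀ + 1) (fun _ b => max b (d b) + 1) n
    have ha0 : a 0 = γ₀ + 1 := rfl
    have has : ∀ n, a (n + 1) = max (a n) (d (a n)) + 1 := fun n => rfl
    have haθ : ∀ n, a n < θ := by
      intro n
      induction n with
      | zero => exact hθ.succ_lt hγ₀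
      | succ n ih =>
        rw [has]
        exact hθ.succ_lt (max_lt ih (hd _ ih).1)
    have hl := hθ.iSup_lt haθ
    have hle : ∀ n, a n ≤ ⨆ n, a n := fun n => le_ciSup Ordinal.bddAbove_of_small n
    have hγl : γ₀ < ⨆ n, a n :=
      (Order.lt_add_one_iff.mpr le_rfl).trans_le (ha0 ▸ hle 0)
    have hmem := (hY _ hγl hl).2.1
    obtain ⟨n, hn⟩ := mem_HH_of_iSup hmem
    have hlt : d (a n) < ⨆ n, a n := by
      refine lt_of_lt_of_le ?_ (hle (n + 1))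
      rw [has]
      exact Order.lt_add_one_iff.mpr (le_max_right _ _)
    exact (hd (a n) (haθ n)).2 _ hlt hl hn
  obtain ⟨β, hβ, hunb⟩ := hpress
  obtain ⟨α, hα1, hα2, hα3⟩ := hunb (max β γ₀) (max_lt hβ hγ₀)
  have hβα : β < α := (le_max_left _ _).trans_lt hα1
  have hγα : γ₀ < α := (le_max_right _ _).trans_lt hα1
  obtain ⟨hYα, hhα, hAα⟩ := hY α hγα hα2
  obtain ⟨δ, hδ, hXδ⟩ := hO'' ((h α)⁻¹ • X) ((infinite_smul _).mpr hX)
  obtain ⟨γ, hγ1, hγ2, hγ3⟩ := hunb (max α δ) (max_lt hα2 hδ)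
  have hαγ : α < γ := (le_max_left _ _).trans_lt hγ1
  have hδγ : δ < γ := (le_max_right _ _).trans_lt hγ1
  obtain ⟨hYγ, hhγ, hAγ⟩ := hY γ (hγα.trans hαγ) hγ2
  obtain ⟨Y', hY', k, hk, hA', hYO⟩ := (hR γ hγ2).r3 (Y γ) hYγ α hαγ
  have h1 : AL X (h γ • k • Y') := hAγ.trans (hA'.smul _)
  have h2 : (h γ • k • Y' ∩ h α • Y α).Infinite := h1.inter_infinite2 hAα hX
  have h3 : (((h α)⁻¹ * h γ * k) • Y' ∩ Y α).Infinite := by
    rw [inter_smul_infinite]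
    rw [← infinite_smul ((h γ) * k), Set.smul_set_inter, smul_smul]
    have e : h γ * k * ((h α)⁻¹ * h γ * k)⁻¹ = h α := by group
    rw [e, mul_smul]
    exact h2
  have hmem : (h α)⁻¹ * h γ * k ∈ HH t 𝒢 α :=
    Subgroup.mul_mem _ (Subgroup.mul_mem _ (Subgroup.inv_mem _ hhα) (HH_mono hβα.le hγ3)) hk
  obtain ⟨h4, h5⟩ := (hR α hα2).r1 Y' hY' (Y α) hYα _ hmem h3
  have hk' : k⁻¹ = (h α)⁻¹ * h γ := by
    rw [eq_comm]
    exact eq_inv_of_mul_eq_one_left h5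
  apply hXδ
  apply hO' δ γ hδγ.le
  refine (hO γ hγ2).opn _ hYO _ ((infinite_smul _).mpr hX) ?_
  rw [hk', mul_smul]
  exact hAγ.smul _

/-- Splitting of an infinite set at an arbitrarily high level. -/
theorem splitting {X : Set ℕ} (hX : X.Infinite) {γ₀ : Ordinal.{0}} (hγ₀ : γ₀ < θ) :
    ∃ α, γ₀ < α ∧ α < θ ∧ ∃ (Y : Bool → Set ℕ) (h : Bool → Equiv.Perm ℕ),
      (∀ b, Y b ∈ 𝓡 α ∧ h b ∈ HH t 𝒢 α ∧ (X ∩ h b • Y b).Infinite) ∧
      ∀ b b', Y b = Y b' → h b = h b' → b = b' := by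
  obtain ⟨α, h1, h2, h3⟩ := undecided hθ hO hO' hO'' hR hX hγ₀
  obtain ⟨Y₀, hY₀, g₀, hg₀, hi₀⟩ := (hR α h2).r2 X hX
  have hd : (X \ g₀ • Y₀).Infinite := by
    intro hf
    exact h3 ⟨Y₀, hY₀, g₀, hg₀, hf⟩
  obtain ⟨Y₁, hY₁, g₁, hg₁, hi₁⟩ := (hR α h2).r2 _ hd
  have hne : ¬ (Y₀ = Y₁ ∧ g₀ = g₁) := by
    rintro ⟨rfl, rfl⟩
    apply hi₁
    convert Set.finite_empty (α := ℕ)
    rw [Set.eq_empty_iff_forall_notMem]
    rintro x ⟨⟨_, hx1⟩, hx2⟩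
    exact hx1 hx2
  refine ⟨α, h1, h2, fun b => if b then Y₁ else Y₀, fun b => if b then g₁ else g₀, ?_, ?_⟩
  · intro b
    cases b with
    | true => exact ⟨hY₁, hg₁, hi₁.mono (fun x hx => ⟨hx.1.1, hx.2⟩)⟩
    | false => exact ⟨hY₀, hg₀, hi₀⟩
  · intro b b' h4 h5
    cases b <;> cases b'
    · rfl
    · exact absurd ⟨h4, h5⟩ hne
    · exact absurd ⟨h4.symm, h5.symm⟩ hne
    · rfl

omit hO hO' hO'' in
theorem DO_Dec {α : Ordinal.{0}} (hα : α < θ) : DO {Z | Dec t 𝒢 𝓡 α Z} := by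
  apply hθ.DO_lt hα (O := fun β => {Z | ∃ Y ∈ 𝓡 β, ∃ h ∈ HH t 𝒢 β, AL Z (h • Y)})
  intro β hβ
  constructor
  · rintro X ⟨Y, hY, h, hh, hA⟩ Z hZ hZX
    exact ⟨Y, hY, h, hh, hZX.trans hA⟩
  · intro X hX
    obtain ⟨Y, hY, h, hh, hi⟩ := (hR β (hβ.trans hα)).r2 X hX
    exact ⟨_, Set.inter_subset_left, hi, Y, hY, h, hh, AL.of_subset Set.inter_subset_right⟩

/-- The tree lemma. -/
theorem exists_rich {I : Type} [Countable I] (X : I → Set ℕ) (hX : ∀ i, (X i).Infinite) :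
    ∃ l < θ, ∀ i, Rich t 𝒢 𝓡 l (X i) := by
  classical
  have hsp : ∀ (X : Set ℕ) (γ : Ordinal.{0}), ∃ (a : Ordinal.{0}) (Y : Bool → Set ℕ)
      (h : Bool → Equiv.Perm ℕ), X.Infinite → γ < θ → (γ < a ∧ a < θ ∧
      (∀ b, Y b ∈ 𝓡 a ∧ h b ∈ HH t 𝒢 a ∧ (X ∩ h b • Y b).Infinite) ∧
      ∀ b b', Y b = Y b' → h b = h b' → b = b') := by
    intro X γ
    by_cases h1 : X.Infinite ∧ γ < θ
    · obtain ⟨a, h2, h3, Y, h, h4, h5⟩ := splitting hθ hO hO' hO'' hR h1.1 h1.2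
      exact ⟨a, Y, h, fun _ _ => ⟨h2, h3, h4, h5⟩⟩
    · exact ⟨0, fun _ => ∅, fun _ => 1, fun h2 h3 => absurd ⟨h2, h3⟩ h1⟩
  choose a E g hE using hsp
  let St := {s : (I × (ℕ → Bool) → Set ℕ) × Ordinal.{0} //
    (∀ p, (s.1 p).Infinite) ∧ s.2 < θ ∧ (Set.range s.1).Countable}
  have hstep : ∀ (n : ℕ) (s : St), ∃ s' : St,
      (∀ p : I × (ℕ → Bool), s'.1.1 p = s.1.1 p ∩ g (s.1.1 p) s.1.2 (p.2 n) •
        E (s.1.1 p) s.1.2 (p.2 n)) ∧ (∀ p, a (s.1.1 p) s.1.2 < s'.1.2) := by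
    rintro n ⟨⟨Y, β⟩, h1, h2, h3⟩
    have hF : ({γ | ∃ p, γ = a (Y p) β} : Set Ordinal.{0}).Countable := by
      refine (h3.image (fun Z => a Z β)).mono ?_
      rintro _ ⟨p, rfl⟩
      exact ⟨Y p, ⟨p, rfl⟩, rfl⟩
    obtain ⟨δ, hδ, hδ'⟩ := hθ.bound_countable hF (by
      rintro _ ⟨p, rfl⟩
      exact (hE (Y p) β (h1 p) h2).2.1)
    refine ⟨⟨⟨fun p => Y p ∩ g (Y p) β (p.2 n) • E (Y p) β (p.2 n), δ⟩, ?_, hδ, ?_⟩,
      fun p => rfl, fun p => hδ' _ ⟨p, rfl⟩⟩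
    · intro p
      exact ((hE (Y p) β (h1 p) h2).2.2.1 (p.2 n)).2.2
    · refine ((h3.prod (Set.countable_univ (α := Bool))).image
        (fun q => q.1 ∩ g q.1 β q.2 • E q.1 β q.2)).mono ?_
      rintro _ ⟨p, rfl⟩
      exact ⟨(Y p, p.2 n), ⟨⟨p, rfl⟩, trivial⟩, rfl⟩
  choose F hF1 hF2 using hstep
  let s₀ : St := ⟨⟨fun p => X p.1, 0⟩, fun p => hX p.1, hθ.pos, by
    refine (Set.countable_range X).mono ?_
    rintro _ ⟨p, rfl⟩
    exact ⟨p.1, rfl⟩⟩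
  let S : ℕ → St := fun n => Nat.rec s₀ (fun n s => F n s) n
  have hSs : ∀ n, S (n + 1) = F n (S n) := fun n => rfl
  let Y : ℕ → I × (ℕ → Bool) → Set ℕ := fun n => (S n).1.1
  let β : ℕ → Ordinal.{0} := fun n => (S n).1.2
  have hYinf : ∀ n p, (Y n p).Infinite := fun n p => (S n).2.1 p
  have hβθ : ∀ n, β n < θ := fun n => (S n).2.2.1
  have hYs : ∀ n p, Y (n + 1) p = Y n p ∩ g (Y n p) (β n) (p.2 n) • E (Y n p) (β n) (p.2 n) := by
    intro n p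
    exact hF1 n (S n) p
  have haβ : ∀ n p, a (Y n p) (β n) < β (n + 1) := fun n p => hF2 n (S n) p
  have hEn := fun n p => hE (Y n p) (β n) (hYinf n p) (hβθ n)
  set l := ⨆ n, β n with hl
  have hlθ : l < θ := hθ.iSup_lt hβθ
  have hβl : ∀ n, β n ≤ l := fun n => le_ciSup Ordinal.bddAbove_of_small n
  have hal : ∀ n p, a (Y n p) (β n) < l := fun n p => (haβ n p).trans_le (hβl (n + 1))
  -- dependence only on initial segments
  have hdep : ∀ n (i : I) (f f' : ℕ → Bool), (∀ m < n, f m = f' m) → Y n (i, f) = Y n (i, f') := by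
    intro n
    induction n with
    | zero => intro i f f' _; rfl
    | succ n ih =>
      intro i f f' h
      have h1 := ih i f f' (fun m hm => h m (hm.trans (Nat.lt_succ_self n)))
      rw [hYs, hYs, h1]
      show _ ∩ g (Y n (i, f')) (β n) (f n) • E (Y n (i, f')) (β n) (f n) =
        _ ∩ g (Y n (i, f')) (β n) (f' n) • E (Y n (i, f')) (β n) (f' n)
      rw [h n (Nat.lt_succ_self n)]
  have hps := fun p => pseudo (fun n => Y n p) (fun n => hYinf n p)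
    (fun n => by
      show Y (n + 1) p ⊆ Y n p
      rw [hYs]; exact Set.inter_subset_left)
  choose V hV1 hV2 hV3 using hps
  have hW := fun p => (DO_Dec hθ hR hlθ).dns (V p) (hV2 p)
  choose W hW1 hW2 hW3 using hW
  have hWY : ∀ n p, AL (W p) (Y n p) := fun n p => AL.mono_left (hW1 p) (hV3 p n)
  refine ⟨l, hlθ, fun i => ⟨fun f => W (i, f), ?_, ?_⟩⟩
  · intro f
    exact ⟨(hW1 _).trans (hV1 (i, f)), hW2 _, hW3 _⟩
  · intro Z' hZ'
    have hsub : {f | Conf (HH t 𝒢 l) (W (i, f)) Z'} ⊆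
        ⋃ (m : ℕ) (s : Fin (m + 1) → Bool), {f | (∀ j : Fin (m + 1), f j = s j) ∧
          ∃ h ∈ HH t 𝒢 (β m), (h • W (i, f) ∩ Z').Infinite} := by
      rintro f ⟨h, hh, hi⟩
      obtain ⟨m, hm⟩ := mem_HH_of_iSup hh
      simp only [Set.mem_iUnion]
      exact ⟨m, fun j => f j, fun j => rfl, h, hm, hi⟩
    refine Set.Countable.mono hsub ?_
    refine Set.countable_iUnion (fun m => Set.countable_iUnion (fun s => ?_))
    apply Set.Subsingleton.countable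
    rintro f ⟨hf1, h, hh, hi⟩ f' ⟨hf1', h', hh', hi'⟩
    -- comparison at level n
    have hcmp : ∀ (f : ℕ → Bool) (h : Equiv.Perm ℕ), h ∈ HH t 𝒢 (β m) →
        (h • W (i, f) ∩ Z').Infinite → ∀ n, m ≤ n → ∀ Y₀ ∈ 𝓡 (a (Y n (i, f)) (β n)),
        ∀ e ∈ HH t 𝒢 (a (Y n (i, f)) (β n)), AL Z' (e • Y₀) →
        E (Y n (i, f)) (β n) (f n) = Y₀ ∧ h * g (Y n (i, f)) (β n) (f n) = e := by
      intro f h hh hi n hmn Y₀ hY₀ e he hA
      have h1 := hEn n (i, f)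
      have h2 : AL (W (i, f)) (g (Y n (i, f)) (β n) (f n) • E (Y n (i, f)) (β n) (f n)) := by
        have := hWY (n + 1) (i, f)
        rw [hYs] at this
        exact this.mono_right Set.inter_subset_right
      have h3 : (h • (g (Y n (i, f)) (β n) (f n) • E (Y n (i, f)) (β n) (f n)) ∩ e • Y₀).Infinite :=
        AL.inter_infinite2 (AL.mono_left Set.inter_subset_left (h2.smul h))
          (AL.mono_left Set.inter_subset_right hA) hi
      have hhn : h ∈ HH t 𝒢 (a (Y n (i, f)) (β n)) := by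
        refine HH_mono ?_ hh
        refine le_trans ?_ h1.1.le
        have hmono : Monotone β := by
          apply monotone_nat_of_le_succ
          intro n
          exact ((hEn n (i, f)).1.trans (haβ n (i, f))).le
        exact hmono hmn
      have h4 : ((e⁻¹ * (h * g (Y n (i, f)) (β n) (f n))) • E (Y n (i, f)) (β n) (f n) ∩ Y₀).Infinite := by
        rw [← infinite_smul e, Set.smul_set_inter, smul_smul, mul_inv_cancel_left, mul_smul]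
        exact h3
      obtain ⟨h5, h6⟩ := (hR _ h1.2.1).r1 _ (h1.2.2.1 (f n)).1 Y₀ hY₀ _
        (Subgroup.mul_mem _ (Subgroup.inv_mem _ he) (Subgroup.mul_mem _ hhn (h1.2.2.1 (f n)).2.1)) h4
      refine ⟨h5, ?_⟩
      rw [inv_mul_eq_one] at h6
      exact h6.symm
    have hagree : ∀ j ≤ m, f j = f' j := by
      intro j hj
      have h1 := hf1 ⟨j, Nat.lt_succ_of_le hj⟩
      have h2 := hf1' ⟨j, Nat.lt_succ_of_le hj⟩
      exact h1.trans h2.symm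
    have hhh' : h = h' := by
      have hYe := hdep m i f f' (fun j hj => hagree j hj.le)
      obtain ⟨Y₀, hY₀, e, he, hA⟩ := hZ' _ (hal m (i, f))
      have h1 := hcmp f h hh hi m le_rfl Y₀ hY₀ e he hA
      rw [hYe] at hY₀ he
      have h2 := hcmp f' h' hh' hi' m le_rfl Y₀ hY₀ e he hA
      have h3 := h1.2.trans h2.2.symm
      rw [hYe, hagree m le_rfl] at h3
      exact mul_right_cancel h3
    have hall : ∀ n, f n = f' n := by
      intro n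
      induction n using Nat.strong_induction_on with
      | _ n ih =>
        rcases le_or_gt n m with hn | hn
        · exact hagree n hn
        · have hYe := hdep n i f f' ih
          obtain ⟨Y₀, hY₀, e, he, hA⟩ := hZ' _ (hal n (i, f))
          have h1 := hcmp f h hh hi n hn.le Y₀ hY₀ e he hA
          rw [hYe] at hY₀ he
          have h2 := hcmp f' h' hh' hi' n hn.le Y₀ hY₀ e he hA
          rw [hYe] at h1
          apply (hEn n (i, f')).2.2.2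
          · exact h1.1.trans h2.1.symm
          · have h3 := h1.2.trans h2.2.symm
            rw [hhh'] at h3
            exact mul_left_cancel h3
    exact funext hall

end

end Pool.Agent.KSec
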