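import Pool.Agent.KSec.Basic

/-!
Generators with small sets of upper endpoints, reduced words and the ascending lemma.
-/

open scoped Pointwise

namespace Pool.Agent.KSec

/-- A generator: a permutation `g` together with the sets `K true`, `K false` of upper endpoints
of edges reached by `g`, respectively by `g⁻¹`. -/
structure Gen where
  g : Equiv.Perm ℕ
  K : Bool → Set ℕ

/-- `x.act true = g`, `x.act false = g⁻¹`. -/
def Gen.act (x : Gen) (δ : Bool) : Equiv.Perm ℕ := if δ then x.g else x.g⁻¹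

theorem Gen.act_not (x : Gen) (δ : Bool) : x.act (!δ) = (x.act δ)⁻¹ := by
  cases δ <;> simp [Gen.act]

theorem Gen.act_inv (x : Gen) (δ : Bool) : (x.act δ)⁻¹ = x.act (!δ) := (x.act_not δ).symm

/-- The properties of a set of generators over a group `H`. -/
structure GP {ι : Type} (τ : ℕ → ι) (H : Subgroup (Equiv.Perm ℕ)) (𝒢 : Set Gen) : Prop where
  gen : ∀ x ∈ 𝒢, ∀ δ v, v ∉ x.K (!δ) → x.act δ v ∈ x.K δ
  p1 : ∀ x ∈ 𝒢, ∀ h ∈ H, ∀ δ, {u | u ∈ x.K δ ∧ h u ≤ x.act (!δ) u}.Finite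
  p2 : ∀ x ∈ 𝒢, ∀ y ∈ 𝒢, ∀ h ∈ H, ∀ δ δ', (h • x.K δ ∩ y.K δ').Infinite →
    x = y ∧ δ = δ' ∧ h = 1
  p3 : ∀ x ∈ 𝒢, ∀ h ∈ H, ∀ δ, ∃ j, (h • x.K δ ∩ τ ⁻¹' {j}).Finite

/-- `W H 𝒢 n w`: the permutation `w` is a word with `n` letters from `𝒢` and coefficients in `H`. -/
inductive W (H : Subgroup (Equiv.Perm ℕ)) (𝒢 : Set Gen) : ℕ → Equiv.Perm ℕ → Prop
  | zero {h : Equiv.Perm ℕ} (hh : h ∈ H) : W H 𝒢 0 h
  | succ {n : ℕ} {w : Equiv.Perm ℕ} {x : Gen} (hx : x ∈ 𝒢) (δ : Bool) {k : Equiv.Perm ℕ}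
      (hk : k ∈ H) (hw : W H 𝒢 n w) : W H 𝒢 (n + 1) (k * x.act δ * w)

/-- Words with at least one letter, recording the first and the last letter. -/
inductive RW (H : Subgroup (Equiv.Perm ℕ)) (𝒢 : Set Gen) (x₁ : Gen) (δ₁ : Bool)
    (k₀ : Equiv.Perm ℕ) : ℕ → Gen → Bool → Equiv.Perm ℕ → Equiv.Perm ℕ → Prop
  | one {k : Equiv.Perm ℕ} (hx : x₁ ∈ 𝒢) (hk₀ : k₀ ∈ H) (hk : k ∈ H) :
      RW H 𝒢 x₁ δ₁ k₀ 1 x₁ δ₁ k (k * x₁.act δ₁ * k₀)
  | snoc {n : ℕ} {x : Gen} {δ : Bool} {k w : Equiv.Perm ℕ} {y : Gen} {k' : Equiv.Perm ℕ}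
      (hw : RW H 𝒢 x₁ δ₁ k₀ n x δ k w) (hy : y ∈ 𝒢) (δ' : Bool) (hk' : k' ∈ H) :
      RW H 𝒢 x₁ δ₁ k₀ (n + 1) y δ' k' (k' * y.act δ' * w)

variable {H : Subgroup (Equiv.Perm ℕ)} {𝒢 : Set Gen}

theorem W.hmul {n : ℕ} {w : Equiv.Perm ℕ} (hw : W H 𝒢 n w) {h : Equiv.Perm ℕ} (hh : h ∈ H) :
    W H 𝒢 n (h * w) := by
  cases hw with
  | zero hk => exact W.zero (H.mul_mem hh hk)
  | succ hx δ hk hw =>
    have := W.succ hx δ (H.mul_mem hh hk) hw
    simpa [mul_assoc] using this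

theorem W.mul {m n : ℕ} {a b : Equiv.Perm ℕ} (ha : W H 𝒢 m a) (hb : W H 𝒢 n b) :
    W H 𝒢 (m + n) (a * b) := by
  induction ha with
  | zero hh => simpa using hb.hmul hh
  | @succ m w x hx δ k hk hw ih =>
    have := W.succ hx δ hk ih
    have he : m + n + 1 = m + 1 + n := by ring
    rw [he] at this
    simpa [mul_assoc] using this

theorem W.mulh {n : ℕ} {w : Equiv.Perm ℕ} (hw : W H 𝒢 n w) {h : Equiv.Perm ℕ} (hh : h ∈ H) :
    W H 𝒢 n (w * h) := by
  simpa using hw.mul (W.zero hh)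

theorem W.inv {n : ℕ} {w : Equiv.Perm ℕ} (hw : W H 𝒢 n w) : W H 𝒢 n w⁻¹ := by
  induction hw with
  | zero hh => exact W.zero (H.inv_mem hh)
  | @succ m w x hx δ k hk hw ih =>
    have h1 : W H 𝒢 1 (1 * x.act (!δ) * k⁻¹) := W.succ hx (!δ) H.one_mem (W.zero (H.inv_mem hk))
    have := ih.mul h1
    simpa [mul_assoc, Gen.act_not] using this

theorem W.mem {n : ℕ} {w : Equiv.Perm ℕ} (hw : W H 𝒢 n w) :
    w ∈ Subgroup.closure ((H : Set (Equiv.Perm ℕ)) ∪ {g | ∃ x ∈ 𝒢, x.g = g}) := by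
  induction hw with
  | zero hh => exact Subgroup.subset_closure (Or.inl hh)
  | @succ m w x hx δ k hk hw ih =>
    refine Subgroup.mul_mem _ (Subgroup.mul_mem _ (Subgroup.subset_closure (Or.inl hk)) ?_) ih
    have hx' : x.g ∈ Subgroup.closure ((H : Set (Equiv.Perm ℕ)) ∪ {g | ∃ x ∈ 𝒢, x.g = g}) :=
      Subgroup.subset_closure (Or.inr ⟨x, hx, rfl⟩)
    cases δ with
    | false => simpa [Gen.act] using hx'
    | true => simpa [Gen.act] using hx'

theorem W.of_mem {w : Equiv.Perm ℕ}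
    (hw : w ∈ Subgroup.closure ((H : Set (Equiv.Perm ℕ)) ∪ {g | ∃ x ∈ 𝒢, x.g = g})) :
    ∃ n, W H 𝒢 n w := by
  induction hw using Subgroup.closure_induction with
  | mem g hg =>
    rcases hg with hg | ⟨x, hx, rfl⟩
    · exact ⟨0, W.zero hg⟩
    · have : W H 𝒢 1 (1 * x.act true * 1) := W.succ hx true H.one_mem (W.zero H.one_mem)
      exact ⟨1, by simpa [Gen.act] using this⟩
  | one => exact ⟨0, W.zero H.one_mem⟩
  | mul a b _ _ ha hb =>
    obtain ⟨m, hm⟩ := ha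
    obtain ⟨n, hn⟩ := hb
    exact ⟨m + n, hm.mul hn⟩
  | inv a _ ha =>
    obtain ⟨m, hm⟩ := ha
    exact ⟨m, hm.inv⟩

/-- Peel off the letter that is applied first. -/
theorem W.peel {n : ℕ} {w : Equiv.Perm ℕ} (hw : W H 𝒢 (n + 1) w) :
    ∃ z x δ k₀, W H 𝒢 n z ∧ x ∈ 𝒢 ∧ k₀ ∈ H ∧ w = z * x.act δ * k₀ := by
  induction n generalizing w with
  | zero =>
    cases hw with
    | @succ _ w x hx δ k hk hw =>
      cases hw with
      | zero hh => exact ⟨k, x, δ, w, W.zero hk, hx, hh, rfl⟩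
  | succ n ih =>
    cases hw with
    | @succ _ w x hx δ k hk hw =>
      obtain ⟨z, y, ε, k₀, hz, hy, hk₀, rfl⟩ := ih hw
      exact ⟨k * x.act δ * z, y, ε, k₀, W.succ hx δ hk hz, hy, hk₀, by simp [mul_assoc]⟩

theorem W.toRW {m : ℕ} {z : Equiv.Perm ℕ} (hz : W H 𝒢 m z) {x : Gen} (hx : x ∈ 𝒢) (δ : Bool)
    {k₀ : Equiv.Perm ℕ} (hk₀ : k₀ ∈ H) :
    ∃ y ε k, RW H 𝒢 x δ k₀ (m + 1) y ε k (z * x.act δ * k₀) := by
  induction hz with
  | zero hh => exact ⟨x, δ, _, RW.one hx hk₀ hh⟩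
  | @succ m w y hy ε k hk hw ih =>
    obtain ⟨y', ε', k', h'⟩ := ih
    refine ⟨y, ε, k, ?_⟩
    have := RW.snoc h' hy ε hk
    simpa [mul_assoc] using this

theorem RW.last {x₁ : Gen} {δ₁ : Bool} {k₀ : Equiv.Perm ℕ} {n : ℕ} {x : Gen} {δ : Bool}
    {k w : Equiv.Perm ℕ} (h : RW H 𝒢 x₁ δ₁ k₀ n x δ k w) :
    x ∈ 𝒢 ∧ k ∈ H ∧ k₀ ∈ H ∧ ∃ m w₀, n = m + 1 ∧ W H 𝒢 m w₀ ∧ w = k * x.act δ * w₀ := by
  induction h with
  | one hx hk₀ hk => exact ⟨hx, hk, hk₀, 0, k₀, rfl, W.zero hk₀, rfl⟩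
  | @snoc n x δ k w y k' hw hy δ' hk' ih =>
    obtain ⟨hx, hk, hk₀, m, w₀, rfl, hw₀, rfl⟩ := ih
    exact ⟨hy, hk', hk₀, m + 1, _, rfl, W.succ hx δ hk hw₀, rfl⟩

theorem RW.toW {x₁ : Gen} {δ₁ : Bool} {k₀ : Equiv.Perm ℕ} {n : ℕ} {x : Gen} {δ : Bool}
    {k w : Equiv.Perm ℕ} (h : RW H 𝒢 x₁ δ₁ k₀ n x δ k w) : W H 𝒢 n w := by
  obtain ⟨hx, hk, hk₀, m, w₀, rfl, hw₀, rfl⟩ := h.last
  exact W.succ hx δ hk hw₀

/-- The ascending lemma. -/
theorem RW.ascend {ι : Type} {τ : ℕ → ι} (P : GP τ H 𝒢) {x₁ : Gen} {δ₁ : Bool}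
    {k₀ : Equiv.Perm ℕ} {n : ℕ} {x : Gen} {δ : Bool} {k w : Equiv.Perm ℕ}
    (h : RW H 𝒢 x₁ δ₁ k₀ n x δ k w) (hmin : ∀ m < n, ¬ W H 𝒢 m w) :
    {v | k₀ v ∉ x₁.K (!δ₁) ∧ ¬ (w v ∈ k • x.K δ ∧ k₀ v < w v)}.Finite := by
  induction h with
  | @one k hx hk₀ hk =>
    refine ((P.p1 x₁ hx k hk δ₁).preimage (f := fun v => (x₁.act δ₁ * k₀) v)
      (Equiv.injective _).injOn).subset ?_
    rintro v ⟨hv1, hv2⟩
    have h1 := P.gen x₁ hx δ₁ (k₀ v) hv1
    refine ⟨h1, ?_⟩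
    by_contra hc
    apply hv2
    have h2 : (k * x₁.act δ₁ * k₀) v = k (x₁.act δ₁ (k₀ v)) := rfl
    rw [h2]
    constructor
    · exact Set.smul_mem_smul_set h1
    · have h3 : x₁.act (!δ₁) ((x₁.act δ₁ * k₀) v) = k₀ v := by
        rw [Gen.act_not]; simp
      rw [h3] at hc
      exact not_le.mp hc
  | @snoc n x δ k w y k' hw hy δ' hk' ih =>
    obtain ⟨hx, hk, hk₀, m, w₀, rfl, hw₀, hwe⟩ := hw.last
    have hmin' : ∀ m' < m + 1, ¬ W H 𝒢 m' w := by
      intro m' hm' hW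
      exact hmin (m' + 1) (by omega) (W.succ hy δ' hk' hW)
    have ih' := ih hmin'
    have hfin : (k • x.K δ ∩ y.K (!δ')).Finite := by
      by_contra hinf
      obtain ⟨h1, h2, h3⟩ := P.p2 x hx y hy k hk δ (!δ') hinf
      subst h1 h3
      have h4 : x.act δ' * w = w₀ := by
        have : δ' = !δ := by rw [h2]; simp
        rw [hwe, this, Gen.act_not]
        simp [mul_assoc]
      have h5 : W H 𝒢 m (k' * x.act δ' * w) := by
        rw [mul_assoc, h4]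
        exact hw₀.hmul hk'
      apply hmin m _ h5
      omega
    refine ((ih'.union (hfin.preimage (f := fun v => w v) w.injective.injOn)).union
      ((P.p1 y hy k' hk' δ').preimage (f := fun v => (y.act δ' * w) v)
      (Equiv.injective _).injOn)).subset ?_
    rintro v ⟨hv1, hv2⟩
    by_cases hv3 : w v ∈ k • x.K δ ∧ k₀ v < w v
    · by_cases hv4 : w v ∈ y.K (!δ')
      · exact Or.inl (Or.inr ⟨hv3.1, hv4⟩)
      · have h1 := P.gen y hy δ' (w v) hv4
        right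
        refine ⟨h1, ?_⟩
        by_contra hc
        apply hv2
        have h2 : (k' * y.act δ' * w) v = k' (y.act δ' (w v)) := rfl
        rw [h2]
        constructor
        · exact Set.smul_mem_smul_set h1
        · have h3 : y.act (!δ') ((y.act δ' * w) v) = w v := by
            rw [Gen.act_not]; simp
          rw [h3] at hc
          exact hv3.2.trans (not_le.mp hc)
    · exact Or.inl (Or.inl ⟨hv1, hv3⟩)

/-- Every nonidentity element has only finitely many fixed points. -/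
def Cof (H : Subgroup (Equiv.Perm ℕ)) : Prop := ∀ h ∈ H, h ≠ 1 → {v | h v = v}.Finite

theorem fix_conj_finite {w c : Equiv.Perm ℕ} (h : {v | (c * w * c⁻¹) v = v}.Finite) :
    {v | w v = v}.Finite := by
  refine (h.preimage (f := fun v => c v) c.injective.injOn).subset ?_
  intro v hv
  show (c * w * c⁻¹) (c v) = c v
  have : w v = v := hv
  simp [this]

/-- Lemma A: cofinitarity is preserved. -/
theorem Cof.closure {ι : Type} {τ : ℕ → ι} (P : GP τ H 𝒢) (hH : Cof H) :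
    Cof (Subgroup.closure ((H : Set (Equiv.Perm ℕ)) ∪ {g | ∃ x ∈ 𝒢, x.g = g})) := by
  classical
  intro w hw hw1
  set H' := Subgroup.closure ((H : Set (Equiv.Perm ℕ)) ∪ {g | ∃ x ∈ 𝒢, x.g = g}) with hH'
  have hex : ∃ n, ∃ c ∈ H', W H 𝒢 n (c * w * c⁻¹) := by
    obtain ⟨n, hn⟩ := W.of_mem hw
    exact ⟨n, 1, H'.one_mem, by simpa using hn⟩
  obtain ⟨c, hc, hcW⟩ := Nat.find_spec hex
  have hmin : ∀ m < Nat.find hex, ∀ c ∈ H', ¬ W H 𝒢 m (c * w * c⁻¹) := by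
    intro m hm c hc hW
    exact Nat.find_min hex hm ⟨c, hc, hW⟩
  rcases hN : Nat.find hex with _ | N
  · rw [hN] at hcW
    cases hcW with
    | zero hh =>
      apply fix_conj_finite (c := c)
      apply hH _ hh
      intro h1
      apply hw1
      have : w = c⁻¹ * (c * w * c⁻¹) * c := by group
      rw [this, h1]
      simp
  · rw [hN] at hcW hmin
    obtain ⟨z₀, x, δ, k₀, hz₀, hx, hk₀, hw1e⟩ := hcW.peel
    have hk₀' : k₀ ∈ H' := Subgroup.subset_closure (Or.inl hk₀)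
    -- conjugate by k₀
    set z := k₀ * z₀ with hz
    have hzW : W H 𝒢 N z := hz₀.hmul hk₀
    set g := x.act δ with hg
    have hg' : g ∈ H' := by
      have : W H 𝒢 1 (1 * x.act δ * 1) := W.succ hx δ H.one_mem (W.zero H.one_mem)
      have h2 := this.mem
      simpa using h2
    have hconj : (k₀ * c) * w * (k₀ * c)⁻¹ = z * g := by
      have : (k₀ * c) * w * (k₀ * c)⁻¹ = k₀ * (c * w * c⁻¹) * k₀⁻¹ := by group
      rw [this, hw1e, hz]
      group
    have hconj2 : (g * k₀ * c) * w * (g * k₀ * c)⁻¹ = g * z := by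
      have : (g * k₀ * c) * w * (g * k₀ * c)⁻¹ = g * ((k₀ * c) * w * (k₀ * c)⁻¹) * g⁻¹ := by group
      rw [this, hconj]
      group
    have hmin1 : ∀ m < N + 1, ¬ W H 𝒢 m (z * g * 1) := by
      intro m hm hW
      rw [mul_one, ← hconj] at hW
      exact hmin m hm _ (H'.mul_mem hk₀' hc) hW
    have hmin2 : ∀ m < N + 1, ¬ W H 𝒢 m (z⁻¹ * x.act (!δ) * 1) := by
      intro m hm hW
      have h3 := hW.inv
      have h4 : (z⁻¹ * x.act (!δ) * 1)⁻¹ = g * z := by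
        rw [Gen.act_not]; simp [hg]
      rw [h4, ← hconj2] at h3
      exact hmin m hm _ (H'.mul_mem (H'.mul_mem hg' hk₀') hc) h3
    obtain ⟨y1, ε1, k1, hR1⟩ := hzW.toRW hx δ H.one_mem
    obtain ⟨y2, ε2, k2, hR2⟩ := hzW.inv.toRW hx (!δ) H.one_mem
    have hA1 := hR1.ascend P hmin1
    have hA2 := hR2.ascend P hmin2
    have hB1 := P.p1 x hx 1 H.one_mem δ
    have hB2 := P.p1 x hx 1 H.one_mem (!δ)
    apply fix_conj_finite (c := k₀ * c)
    rw [hconj]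
    refine (((hA1.union (hA2.preimage (f := fun v => g v) g.injective.injOn)).union
      (hB1.preimage (f := fun v => g v) g.injective.injOn)).union hB2).subset ?_
    intro v hv
    have hv : z (g v) = v := hv
    by_cases h1 : v ∈ x.K (!δ)
    · by_cases h2 : g v ∈ x.K δ
      · rcases le_total v (g v) with h3 | h3
        · right
          refine ⟨h1, ?_⟩
          have h4 : x.act (!!δ) v = g v := by simp [hg]
          rw [h4]
          exact h3
        · left; right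
          refine ⟨h2, ?_⟩
          have h4 : x.act (!δ) (g v) = v := by rw [Gen.act_not]; simp [hg]
          show (1 : Equiv.Perm ℕ) (g v) ≤ x.act (!δ) (g v)
          rw [h4]
          exact h3
      · left; left; right
        refine ⟨?_, ?_⟩
        · show (1 : Equiv.Perm ℕ) (g v) ∉ x.K (!!δ)
          simpa using h2
        · intro hc'
          have h5 : (z⁻¹ * x.act (!δ) * 1) (g v) = g v := by
            rw [Gen.act_not]
            have h6 : z⁻¹ v = g v := by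
              rw [Equiv.Perm.inv_eq_iff_eq]
              exact hv.symm
            simp [hg] at h6 ⊢
            exact h6
          have h7 := hc'.2
          rw [h5] at h7
          exact lt_irrefl _ h7
    · left; left; left
      refine ⟨?_, ?_⟩
      · show (1 : Equiv.Perm ℕ) v ∉ x.K (!δ)
        simpa using h1
      · intro hc'
        have h5 : (z * x.act δ * 1) v = v := by
          simpa [hg] using hv
        have h7 := hc'.2
        rw [h5] at h7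
        exact lt_irrefl _ h7

end Pool.Agent.KSec
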